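import Mathlib

set_option autoImplicit false

open Polynomial WeierstrassCurve WeierstrassCurve.Affine

namespace Pool.Agent.Helper641.Rigid

variable {K : Type} [Field K]

/-- The curve Y^2 = X^3 + a. -/
def crv (a : K) : WeierstrassCurve.Affine K := ⟨0, 0, 0, 0, a⟩

abbrev CR (a : K) : Type := (crv a).CoordinateRing

noncomputable def elV (a : K) : CR a := CoordinateRing.mk (crv a) (C X)
noncomputable def elU (a : K) : CR a := CoordinateRing.mk (crv a) X

lemma smul_one_eq (a : K) (p : K[X]) : (p • (1 : CR a)) = CoordinateRing.mk (crv a) (C p) := by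
  rw [CoordinateRing.smul, mul_one]

lemma rel (a : K) : elU a ^ 2 = elV a ^ 3 + algebraMap K (CR a) a := by
  have h : (CoordinateRing.mk (crv a)) (crv a).polynomial = 0 := AdjoinRoot.mk_self
  have h2 : (crv a).polynomial = X ^ 2 - (C (X ^ 3 + C a)) := by
    rw [WeierstrassCurve.Affine.polynomial]
    simp [crv]
  have h4 := (congrArg (CoordinateRing.mk (crv a)) h2).symm.trans h
  have h3 : algebraMap K (CR a) a = CoordinateRing.mk (crv a) (C (C a)) := rfl
  rw [h3, elU, elV, ← map_pow, ← map_pow, ← map_add]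
  rw [map_sub, sub_eq_zero] at h4
  rw [h4]
  simp

/-- degree of the norm -/
noncomputable def D {a : K} (g : CR a) : WithBot ℕ := (Algebra.norm K[X] g).degree

lemma D_mul {a : K} (g h : CR a) : D (g * h) = D g + D h := by
  unfold D
  rw [map_mul, degree_mul]

lemma D_pq {a : K} (p q : K[X]) :
    D (p • (1 : CR a) + q • elU a) = max (2 • p.degree) (2 • q.degree + 3) :=
  CoordinateRing.degree_norm_smul_basis p q

lemma exists_pq {a : K} (g : CR a) : ∃ p q : K[X], g = p • (1 : CR a) + q • elU a := by
  obtain ⟨p, q, h⟩ := CoordinateRing.exists_smul_basis_eq g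
  exact ⟨p, q, h.symm⟩

lemma pq_zero {a : K} {p q : K[X]} (h : p • (1 : CR a) + q • elU a = 0) : p = 0 ∧ q = 0 :=
  CoordinateRing.smul_basis_eq_zero h

lemma two_nsmul_mono {x y : WithBot ℕ} (h : x ≤ y) : 2 • x ≤ 2 • y := by
  rw [two_nsmul, two_nsmul]; exact add_le_add h h

lemma D_add_le {a : K} (g h : CR a) : D (g + h) ≤ max (D g) (D h) := by
  obtain ⟨p, q, rfl⟩ := exists_pq g
  obtain ⟨p', q', rfl⟩ := exists_pq h
  have : p • (1 : CR a) + q • elU a + (p' • (1 : CR a) + q' • elU a)
      = (p + p') • (1 : CR a) + (q + q') • elU a := by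
    rw [add_smul, add_smul]; abel
  rw [this, D_pq, D_pq, D_pq]
  have h1 : 2 • (p + p').degree ≤ max (2 • p.degree) (2 • p'.degree) := by
    rcases le_total p.degree p'.degree with hh | hh
    · exact (two_nsmul_mono ((degree_add_le _ _).trans (max_le hh le_rfl))).trans (le_max_right _ _)
    · exact (two_nsmul_mono ((degree_add_le _ _).trans (max_le le_rfl hh))).trans (le_max_left _ _)
  have h2 : 2 • (q + q').degree + 3 ≤ max (2 • q.degree + 3) (2 • q'.degree + 3) := by
    rcases le_total q.degree q'.degree with hh | hh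
    · refine le_trans (add_le_add_left (two_nsmul_mono ((degree_add_le _ _).trans (max_le hh le_rfl))) _) (le_max_right _ _)
    · refine le_trans (add_le_add_left (two_nsmul_mono ((degree_add_le _ _).trans (max_le le_rfl hh))) _) (le_max_left _ _)
  refine max_le ?_ ?_
  · refine h1.trans (max_le ?_ ?_)
    · exact le_trans (le_max_left _ _) (le_max_left _ _)
    · exact le_trans (le_max_left _ _) (le_max_right _ _)
  · refine h2.trans (max_le ?_ ?_)
    · exact le_trans (le_max_right _ _) (le_max_left _ _)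
    · exact le_trans (le_max_right _ _) (le_max_right _ _)

lemma D_zero {a : K} : D (0 : CR a) = ⊥ := by
  have := D_pq (a := a) 0 0
  simpa using this

lemma D_ne_bot {a : K} {g : CR a} (hg : g ≠ 0) : D g ≠ ⊥ := by
  obtain ⟨p, q, rfl⟩ := exists_pq g
  rw [D_pq]
  intro h
  rw [max_eq_bot] at h
  obtain ⟨h1, h2⟩ := h
  apply hg
  have hp : p = 0 := by
    by_contra hp
    rw [degree_eq_natDegree hp] at h1
    revert h1
    rw [two_nsmul, ← WithBot.coe_natCast, ← WithBot.coe_add]
    exact WithBot.coe_ne_bot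
  have hq : q = 0 := by
    by_contra hq
    rw [degree_eq_natDegree hq] at h2
    revert h2
    rw [two_nsmul]
    intro h2
    have : (((q.natDegree + q.natDegree + 3 : ℕ) : WithBot ℕ)) = ⊥ := by exact_mod_cast h2
    exact WithBot.natCast_ne_bot _ this
  rw [hp, hq]; simp


lemma algebraMap_eq {a : K} (k : K) : algebraMap K (CR a) k = (C k) • (1 : CR a) + (0 : K[X]) • elU a := by
  rw [zero_smul, add_zero, smul_one_eq]; rfl

lemma D_const {a : K} {k : K} (hk : k ≠ 0) : D (algebraMap K (CR a) k) = 0 := by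
  rw [algebraMap_eq, D_pq, degree_C hk]; simp

lemma D_const_le {a : K} (k : K) : D (algebraMap K (CR a) k) ≤ 0 := by
  by_cases hk : k = 0
  · rw [hk, map_zero, D_zero]; exact bot_le
  · rw [D_const hk]

lemma D_one {a : K} : D (1 : CR a) = 0 := by
  have := D_const (a := a) (one_ne_zero (α := K))
  rwa [map_one] at this

lemma D_V {a : K} : D (elV a) = 2 := by
  have : elV a = (X : K[X]) • (1 : CR a) + (0 : K[X]) • elU a := by
    rw [zero_smul, add_zero, smul_one_eq]; rfl
  rw [this, D_pq, degree_X]; simp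

lemma D_U {a : K} : D (elU a) = 3 := by
  have : elU a = (0 : K[X]) • (1 : CR a) + (1 : K[X]) • elU a := by simp
  rw [this, D_pq]; simp

lemma exists_nat {a : K} {g : CR a} (hg : g ≠ 0) : ∃ m : ℕ, D g = (m : WithBot ℕ) := by
  have h := D_ne_bot hg
  obtain ⟨m, hm⟩ := WithBot.ne_bot_iff_exists.mp h
  exact ⟨m, hm.symm⟩

lemma D_neg {a : K} (g : CR a) : D (-g) = D g := by
  have h : D (-1 : CR a) = 0 := by
    have := D_const (a := a) (neg_ne_zero.mpr (one_ne_zero (α := K)))
    rwa [map_neg, map_one] at this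
  have h2 : -g = (-1) * g := by ring
  rw [h2, D_mul, h, zero_add]

lemma D_add_eq {a : K} {g h : CR a} (hgh : D g < D h) : D (g + h) = D h := by
  apply le_antisymm
  · exact (D_add_le g h).trans (max_le hgh.le le_rfl)
  · have h1 : h = (g + h) + (-g) := by ring
    have h2 := D_add_le (g + h) (-g)
    rw [← h1, D_neg] at h2
    rcases le_max_iff.mp h2 with h3 | h3
    · exact h3
    · exact absurd h3 (not_le.mpr hgh)

lemma D_pow {a : K} {g : CR a} {m : ℕ} (hg : D g = (m : WithBot ℕ)) (n : ℕ) :
    D (g ^ n) = ((n * m : ℕ) : WithBot ℕ) := by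
  induction n with
  | zero => simp [D_one]
  | succ n ih => rw [pow_succ, D_mul, ih, hg]; push_cast; ring

lemma D_aeval {a : K} {g : CR a} {m : ℕ} (hm : 0 < m) (hg : D g = (m : WithBot ℕ)) :
    ∀ (n : ℕ) (A : K[X]), A ≠ 0 → A.natDegree = n →
      D (aeval g A) = ((n * m : ℕ) : WithBot ℕ) := by
  intro n
  induction n using Nat.strong_induction_on with
  | _ n ih =>
    intro A hA hn
    have hlc : A.leadingCoeff ≠ 0 := leadingCoeff_ne_zero.mpr hA
    have h1 : D (aeval g (C A.leadingCoeff * X ^ A.natDegree)) = ((n * m : ℕ) : WithBot ℕ) := by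
      rw [map_mul, map_pow, aeval_X, aeval_C, D_mul, D_const hlc, zero_add, hn, D_pow hg]
    by_cases hE : A.eraseLead = 0
    · have h2 : A = C A.leadingCoeff * X ^ A.natDegree := by
        conv_lhs => rw [← A.eraseLead_add_C_mul_X_pow]
        rw [hE, zero_add]
      rw [h2]
      exact h1
    · have hlt : A.eraseLead.natDegree < n := by
        rw [← hn]
        exact (eraseLead_natDegree_lt_or_eraseLead_eq_zero A).resolve_right hE
      have h3 := ih _ hlt A.eraseLead hE rfl
      have h4 : aeval g A = aeval g A.eraseLead + aeval g (C A.leadingCoeff * X ^ A.natDegree) := by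
        rw [← map_add, A.eraseLead_add_C_mul_X_pow]
      rw [h4, D_add_eq, h1]
      rw [h1, h3]
      exact_mod_cast Nat.mul_lt_mul_of_pos_right hlt hm


lemma eq_const_of_D_le {a : K} {g : CR a} (hg : D g ≤ 0) : ∃ k : K, g = algebraMap K (CR a) k := by
  obtain ⟨p, q, rfl⟩ := exists_pq g
  rw [D_pq] at hg
  have h1 := (le_max_left _ _).trans hg
  have h2 := (le_max_right _ _).trans hg
  have hq : q = 0 := by
    by_contra hq
    rw [degree_eq_natDegree hq, two_nsmul] at h2
    have h3 : q.natDegree + q.natDegree + 3 ≤ 0 := by exact_mod_cast h2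
    omega
  have hp : p = C (p.coeff 0) := by
    apply eq_C_of_degree_le_zero
    by_cases hp : p = 0
    · rw [hp]; simp
    · rw [degree_eq_natDegree hp, two_nsmul] at h1
      rw [degree_eq_natDegree hp]
      have h3 : p.natDegree + p.natDegree ≤ 0 := by exact_mod_cast h1
      have h4 : p.natDegree = 0 := by omega
      rw [h4]; rfl
  refine ⟨p.coeff 0, ?_⟩
  rw [algebraMap_eq, hq, ← hp]

lemma cubic_zero {w3 w2 w1 w0 : K}
    (h : (C w3 * X ^ 3 + C w2 * X ^ 2 + C w1 * X + C w0 : K[X]) = 0) :
    w3 = 0 ∧ w2 = 0 ∧ w0 = 0 := by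
  have c3 := congrArg (fun f => coeff f 3) h
  have c2 := congrArg (fun f => coeff f 2) h
  have c0 := congrArg (fun f => coeff f 0) h
  simp [coeff_X, coeff_C] at c3 c2 c0
  exact ⟨c3, c2, c0⟩

/-- Rigidity: a solution of U'^2 = V'^3 + a' in the coordinate ring which generates V is
proportional to (U, V). -/
lemma rigid [CharZero K] {a a' : K} {U' V' : CR a}
    (hrel : U' ^ 2 = V' ^ 3 + algebraMap K (CR a) a')
    {A B : K[X]} (hV : elV a = aeval V' A + aeval V' B * U') :
    ∃ α : K, U' = algebraMap K (CR a) α * elU a ∧ α ^ 2 * a = a' := by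
  -- V' is not constant
  have hV'0 : ¬ D V' ≤ 0 := by
    intro h
    obtain ⟨k, hk⟩ := eq_const_of_D_le h
    have hU : D U' ≤ 0 := by
      have h1 : D (U' ^ 2) ≤ 0 := by
        rw [hrel, hk, ← map_pow, ← map_add]
        exact D_const_le _
      by_cases hz : U' = 0
      · rw [hz, D_zero]; exact bot_le
      obtain ⟨m, hm⟩ := exists_nat hz
      rw [D_pow hm] at h1
      rw [hm]
      have h2 : 2 * m ≤ 0 := by exact_mod_cast h1
      have h3 : m = 0 := by omega
      rw [h3]; rfl
    obtain ⟨l, hl⟩ := eq_const_of_D_le hU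
    have h2 : elV a = algebraMap K (CR a) (aeval k A + aeval k B * l) := by
      rw [hV, hk, hl, map_add, map_mul, aeval_algebraMap_apply, aeval_algebraMap_apply]
    have h3 := D_const_le (a := a) (aeval k A + aeval k B * l)
    rw [← h2, D_V] at h3
    exact absurd h3 (by decide)
  have hV'ne : V' ≠ 0 := by
    rintro rfl
    apply hV'0
    rw [D_zero]; exact bot_le
  obtain ⟨m, hm⟩ := exists_nat hV'ne
  have hmpos : 0 < m := by
    rw [hm] at hV'0
    rcases Nat.eq_zero_or_pos m with h | h
    · exfalso; apply hV'0; rw [h]; rfl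
    · exact h
  have h3 : D (U' ^ 2) = ((3 * m : ℕ) : WithBot ℕ) := by
    rw [hrel, add_comm, D_add_eq, D_pow hm]
    rw [D_pow hm]
    refine (D_const_le a').trans_lt ?_
    exact_mod_cast Nat.mul_pos (by norm_num) hmpos
  have hU'ne : U' ≠ 0 := by
    rintro rfl
    rw [zero_pow two_ne_zero, D_zero] at h3
    exact WithBot.bot_ne_natCast _ h3
  obtain ⟨l, hl⟩ := exists_nat hU'ne
  have h4 : 2 * l = 3 * m := by
    rw [D_pow hl] at h3
    exact_mod_cast h3
  -- degrees of the two summands of V
  have hm2 : m = 2 := by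
    by_cases hB : B = 0
    · rw [hB, map_zero, zero_mul, add_zero] at hV
      have hA : A ≠ 0 := by
        rintro rfl
        rw [map_zero] at hV
        have := D_V (a := a)
        rw [hV, D_zero] at this
        exact absurd this (by decide)
      have h5 := D_V (a := a)
      rw [hV, D_aeval hmpos hm _ A hA rfl] at h5
      have h6 : A.natDegree * m = 2 := by exact_mod_cast h5
      have h7 : m ∣ 2 := ⟨A.natDegree, by rw [← h6]; ring⟩
      have h8 : m ≤ 2 := Nat.le_of_dvd (by norm_num) h7
      interval_cases m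
      · omega
      · rfl
    · exfalso
      have hBd : D (aeval V' B * U') = ((B.natDegree * m + l : ℕ) : WithBot ℕ) := by
        rw [D_mul, D_aeval hmpos hm _ B hB rfl, hl]; push_cast; rfl
      by_cases hA : A = 0
      · rw [hA, map_zero, zero_add] at hV
        have h5 := D_V (a := a)
        rw [hV, hBd] at h5
        have h6 : B.natDegree * m + l = 2 := by exact_mod_cast h5
        have : 3 ≤ l := by omega
        omega
      · have hAd := D_aeval hmpos hm _ A hA rfl
        have h5 := D_V (a := a)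
        obtain ⟨n, rfl⟩ : ∃ n, m = 2 * n := ⟨m / 2, by omega⟩
        have hl' : l = 3 * n := by omega
        rcases lt_trichotomy (A.natDegree * (2 * n)) (B.natDegree * (2 * n) + l) with h6 | h6 | h6
        · rw [hV, D_add_eq, hBd] at h5
          · have h6 : B.natDegree * (2 * n) + l = 2 := by exact_mod_cast h5
            have : 3 ≤ l := by omega
            omega
          · rw [hAd, hBd]; exact_mod_cast h6
        · rw [hl'] at h6
          have h7 : n * (2 * A.natDegree) = n * (2 * B.natDegree + 3) := by nlinarith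
          have h8 := Nat.eq_of_mul_eq_mul_left (by omega : 0 < n) h7
          omega
        · rw [hV, add_comm, D_add_eq, hAd] at h5
          · have h7 : A.natDegree * (2 * n) = 2 := by exact_mod_cast h5
            have : 3 ≤ l := by omega
            omega
          · rw [hAd, hBd]; exact_mod_cast h6
  subst hm2
  have hl3 : l = 3 := by omega
  subst hl3
  obtain ⟨p, q, hpq⟩ := exists_pq V'
  obtain ⟨r, s, hrs⟩ := exists_pq U'
  rw [hpq, D_pq] at hm
  rw [hrs, D_pq] at hl
  have hq : q = 0 := by
    by_contra hq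
    have := (le_max_right (2 • p.degree) (2 • q.degree + 3)).trans hm.le
    rw [degree_eq_natDegree hq, two_nsmul] at this
    have h3 : q.natDegree + q.natDegree + 3 ≤ 2 := by exact_mod_cast this
    omega
  have hp : p.natDegree ≤ 1 := by
    by_cases hp : p = 0
    · rw [hp]; simp
    have := (le_max_left (2 • p.degree) (2 • q.degree + 3)).trans hm.le
    rw [degree_eq_natDegree hp, two_nsmul] at this
    have h3 : p.natDegree + p.natDegree ≤ 2 := by exact_mod_cast this
    omega
  have hs : s.natDegree ≤ 0 := by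
    by_cases hs : s = 0
    · rw [hs]; simp
    have := (le_max_right (2 • r.degree) (2 • s.degree + 3)).trans hl.le
    rw [degree_eq_natDegree hs, two_nsmul] at this
    have h3 : s.natDegree + s.natDegree + 3 ≤ 3 := by exact_mod_cast this
    omega
  have hs0 : s.coeff 0 ≠ 0 := by
    intro hs0
    have hs' : s = 0 := by
      rw [eq_C_of_natDegree_le_zero hs, hs0, C_0]
    rw [hs'] at hl
    by_cases hr : r = 0
    · rw [hr] at hl; simp at hl
    · rw [degree_eq_natDegree hr, two_nsmul, degree_zero] at hl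
      have h3 : max ((r.natDegree + r.natDegree : ℕ) : WithBot ℕ) ⊥ = ((3 : ℕ) : WithBot ℕ) := by
        have e : (2 • (⊥ : WithBot ℕ) + 3) = ⊥ := by rw [two_nsmul]; rfl
        rw [e] at hl
        exact_mod_cast hl
      rw [max_bot_right] at h3
      have h5 : r.natDegree + r.natDegree = 3 := by exact_mod_cast h3
      omega
  have hs' : s = C (s.coeff 0) := eq_C_of_natDegree_le_zero hs
  have hp' : p = C (p.coeff 1) * X + C (p.coeff 0) := eq_X_add_C_of_natDegree_le_one hp
  have hUU : elU a ^ 2 = (X ^ 3 + C a : K[X]) • (1 : CR a) := by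
    rw [rel, smul_one_eq, elV, ← map_pow]
    have h3 : algebraMap K (CR a) a = CoordinateRing.mk (crv a) (C (C a)) := rfl
    rw [h3, ← map_add]
    simp
  have hexp : (r ^ 2 + s ^ 2 * (X ^ 3 + C a) - p ^ 3 - C a' : K[X]) • (1 : CR a) + (2 * r * s : K[X]) • elU a = 0 := by
    have h3 : algebraMap K (CR a) a' = (C a' : K[X]) • (1 : CR a) := by
      rw [smul_one_eq]; rfl
    have h5 : U' ^ 2 - (V' ^ 3 + algebraMap K (CR a) a') = 0 := by rw [hrel, sub_self]
    rw [hpq, hrs, hq, zero_smul, add_zero, h3] at h5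
    rw [← h5]
    have e1 : (r • (1 : CR a) + s • elU a) ^ 2 = (r ^ 2) • (1 : CR a) + (2 * r * s) • elU a + (s ^ 2) • (elU a ^ 2) := by
      have h2 : algebraMap K[X] (CR a) 2 = 2 := map_ofNat _ 2
      simp only [Algebra.smul_def, map_mul, map_pow, mul_one, h2]
      ring
    rw [e1, hUU]
    simp only [Algebra.smul_def, map_mul, map_pow, mul_one, map_add, map_sub]
    ring
  obtain ⟨h6, h7⟩ := pq_zero hexp
  have hsne : s ≠ 0 := by
    intro h; apply hs0; rw [h]; simp
  have hr : r = 0 := by
    have h2 : (2 : K[X]) ≠ 0 := two_ne_zero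
    rcases mul_eq_zero.mp h7 with h8 | h8
    · rcases mul_eq_zero.mp h8 with h9 | h9
      · exact absurd h9 h2
      · exact h9
    · exact absurd h8 hsne
  rw [hr] at h6
  generalize hS : s.coeff 0 = S at *
  generalize hb : p.coeff 1 = b at *
  generalize hb0 : p.coeff 0 = b0 at *
  rw [hs', hp'] at h6
  have h8 : (C (S ^ 2 - b ^ 3) * X ^ 3 + C (- 3 * b ^ 2 * b0) * X ^ 2 + C (- 3 * b * b0 ^ 2) * X
      + C (S ^ 2 * a - b0 ^ 3 - a') : K[X]) = 0 := by
    rw [← h6]
    simp only [map_sub, map_mul, map_pow, map_neg, map_ofNat]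
    ring
  obtain ⟨c3, c2, c0⟩ := cubic_zero h8
  have hbne : b ≠ 0 := by
    rintro rfl
    apply hs0
    have : S ^ 2 = 0 := by linear_combination c3
    exact pow_eq_zero_iff two_ne_zero |>.mp this
  have hb00 : b0 = 0 := by
    have h9 : b ^ 2 * b0 = 0 := by
      have h3 : (3 : K) ≠ 0 := three_ne_zero
      have : 3 * (b ^ 2 * b0) = 0 := by linear_combination -c2
      exact (mul_eq_zero.mp this).resolve_left h3
    rcases mul_eq_zero.mp h9 with h | h
    · exact absurd (pow_eq_zero_iff two_ne_zero |>.mp h) hbne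
    · exact h
  refine ⟨S, ?_, ?_⟩
  · rw [hrs, hr, hs', zero_smul, zero_add, Algebra.smul_def]
    rfl
  · rw [hb00] at c0
    linear_combination c0

end Pool.Agent.Helper641.Rigid
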