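import Mathlib
import Pool.Agent.Helper641.Rigid

set_option autoImplicit false

open Pool.Agent.Helper641.Rigid

namespace Pool.Agent.Helper641.Fibres

noncomputable section

open MvPolynomial

abbrev R3 : Type := MvPolynomial (Fin 3) ℂ

/-- The polynomial of the counterexample. -/
def pp : R3 :=
  2 * (1 + X 2) ^ 3 * X 0 - 3 * (1 + X 2) ^ 4 * X 1 + X 2 ^ 6 * X 0 ^ 2
    - 3 * (1 + X 2) ^ 2 * X 2 ^ 6 * X 1 ^ 2 - X 2 ^ 12 * X 1 ^ 3

def uu : R3 := X 2 ^ 6 * X 0 + (1 + X 2) ^ 3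
def vv : R3 := X 2 ^ 6 * X 1 + (1 + X 2) ^ 2

lemma key : uu ^ 2 - vv ^ 3 = X 2 ^ 6 * pp := by
  unfold uu vv pp; ring

/-- Evaluate the polynomial in any commutative ring. -/
def P {A : Type} [CommRing A] (x y z : A) : A :=
  2 * (1 + z) ^ 3 * x - 3 * (1 + z) ^ 4 * y + z ^ 6 * x ^ 2
    - 3 * (1 + z) ^ 2 * z ^ 6 * y ^ 2 - z ^ 12 * y ^ 3

lemma key' {A : Type} [CommRing A] (x y z : A) :
    (z ^ 6 * x + (1 + z) ^ 3) ^ 2 - (z ^ 6 * y + (1 + z) ^ 2) ^ 3 = z ^ 6 * P x y z := by
  unfold P; ring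

lemma aeval_pp {A : Type} [CommRing A] [Algebra ℂ A] (f : Fin 3 → A) :
    aeval f pp = P (f 0) (f 1) (f 2) := by
  unfold pp P
  simp

lemma map_P {A A' : Type} [CommRing A] [CommRing A'] (φ : A →+* A') (x y z : A) :
    φ (P x y z) = P (φ x) (φ y) (φ z) := by
  have h2 : φ 2 = 2 := map_ofNat φ 2
  have h3 : φ 3 = 3 := map_ofNat φ 3
  unfold P
  simp only [map_sub, map_add, map_mul, map_pow, h2, h3, map_one]

/-- the ideal of the fibre -/
def I (c : ℂ) : Ideal R3 := Ideal.span {pp - C c}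

abbrev B (c : ℂ) : Type := R3 ⧸ I c

def xb (c : ℂ) : B c := Ideal.Quotient.mk (I c) (X 0)
def yb (c : ℂ) : B c := Ideal.Quotient.mk (I c) (X 1)
def zb (c : ℂ) : B c := Ideal.Quotient.mk (I c) (X 2)

lemma P_b (c : ℂ) : P (xb c) (yb c) (zb c) = algebraMap ℂ (B c) c := by
  have h : Ideal.Quotient.mk (I c) (pp - C c) = 0 :=
    Ideal.Quotient.eq_zero_iff_mem.mpr (Ideal.subset_span rfl)
  rw [map_sub, sub_eq_zero] at h
  have h2 : (Ideal.Quotient.mk (I c)) pp = P (xb c) (yb c) (zb c) := by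
    have : pp = P (X 0) (X 1) (X 2) := rfl
    rw [this, map_P]; rfl
  rw [← h2, h]
  rfl

/-- Polynomial curves in the fibres: Mason-Stothers. -/
lemma curves {c : ℂ} (hc : c ≠ 0) (x y z : Polynomial ℂ)
    (h : P x y z = Polynomial.C c) :
    z = 0 ∨ (x.natDegree = 0 ∧ y.natDegree = 0 ∧ z.natDegree = 0) := by
  by_cases hz : z = 0
  · exact Or.inl hz
  right
  set u := z ^ 6 * x + (1 + z) ^ 3 with hu
  set v := z ^ 6 * y + (1 + z) ^ 2 with hv
  have hrel : u ^ 2 - v ^ 3 = z ^ 6 * Polynomial.C c := by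
    rw [hu, hv, key', h]
  have hvz : IsCoprime v z := by
    refine ⟨1, -(z ^ 5 * y + 2 + z), ?_⟩
    rw [hv]; ring
  have huz : IsCoprime u z := by
    refine ⟨1, -(z ^ 5 * x + 3 + 3 * z + z ^ 2), ?_⟩
    rw [hu]; ring
  have huv : IsCoprime u v := by
    have h1 : IsCoprime u (z ^ 6 * Polynomial.C c) := by
      refine IsCoprime.mul_right huz.pow_right ?_
      refine ⟨0, Polynomial.C c⁻¹, ?_⟩
      rw [zero_mul, zero_add, ← Polynomial.C_mul, inv_mul_cancel₀ hc, Polynomial.C_1]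
    rw [← hrel] at h1
    have h2 : IsCoprime u (v ^ 3) := by
      have : u ^ 2 - v ^ 3 = - v ^ 3 + u * u := by ring
      rw [this] at h1
      have := (IsCoprime.add_mul_left_right_iff).mp h1
      exact (IsCoprime.neg_right_iff _ _).mp (by simpa using this)
    exact (IsCoprime.pow_right_iff (by norm_num)).mp h2
  -- finishing: if z is constant and u or v is constant
  have fin1 : ∀ w : Polynomial ℂ, ∀ s : Polynomial ℂ, z.natDegree = 0 →
      (z ^ 6 * w + s).natDegree = 0 → s.natDegree = 0 → w.natDegree = 0 := by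
    intro w s hz0 h1 h2
    have hz6 : (z ^ 6).natDegree = 0 := by rw [Polynomial.natDegree_pow, hz0]
    have h3 : (z ^ 6 * w).natDegree = 0 := by
      have : z ^ 6 * w = (z ^ 6 * w + s) - s := by ring
      rw [this]
      have := Polynomial.natDegree_sub_le (z ^ 6 * w + s) s
      rw [h1, h2] at this
      simpa using this
    by_cases hw : w = 0
    · rw [hw]; simp
    rw [Polynomial.natDegree_mul (pow_ne_zero 6 hz) hw] at h3
    omega
  have hs : ∀ n : ℕ, z.natDegree = 0 → ((1 + z) ^ n).natDegree = 0 := by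
    intro n hz0
    rw [Polynomial.natDegree_pow]
    have : (1 + z).natDegree ≤ 0 := by
      refine (Polynomial.natDegree_add_le _ _).trans ?_
      simp [hz0]
    have h0 : (1 + z).natDegree = 0 := by omega
    rw [h0, mul_zero]
  have main : z.natDegree = 0 ∧ u.natDegree = 0 ∧ v.natDegree = 0 := by
    by_cases hu0 : u = 0
    · rw [hu0] at huz huv
      have hzu : IsUnit z := isCoprime_zero_left.mp huz
      have hvu : IsUnit v := isCoprime_zero_left.mp huv
      refine ⟨Polynomial.natDegree_eq_zero_of_isUnit hzu, ?_, Polynomial.natDegree_eq_zero_of_isUnit hvu⟩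
      rw [hu0]; simp
    by_cases hv0 : v = 0
    · rw [hv0] at hvz huv
      have hzu : IsUnit z := isCoprime_zero_left.mp hvz
      have hvu : IsUnit u := isCoprime_zero_right.mp huv
      refine ⟨Polynomial.natDegree_eq_zero_of_isUnit hzu, Polynomial.natDegree_eq_zero_of_isUnit hvu, ?_⟩
      rw [hv0]; simp
    have heq : Polynomial.C (1 : ℂ) * u ^ 2 + Polynomial.C (-1 : ℂ) * v ^ 3
        + Polynomial.C (-c) * z ^ 6 = 0 := by
      have : u ^ 2 - v ^ 3 - z ^ 6 * Polynomial.C c = 0 := by rw [hrel, sub_self]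
      rw [← this]
      simp only [Polynomial.C_neg, Polynomial.C_1]
      ring
    obtain ⟨h1, h2, h3⟩ := Polynomial.flt_catalan (k := ℂ) (p := 2) (q := 3) (r := 6)
      (by norm_num) (by norm_num) (by norm_num) (by norm_num) (by norm_num) (by norm_num)
      (by norm_num) hu0 hv0 hz huv (one_ne_zero) (neg_ne_zero.mpr one_ne_zero)
      (neg_ne_zero.mpr hc) heq
    exact ⟨h3, h1, h2⟩
  obtain ⟨hz0, hu0, hv0⟩ := main
  exact ⟨fin1 x _ hz0 hu0 (hs 3 hz0), fin1 y _ hz0 hv0 (hs 2 hz0), hz0⟩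

/-- The affine line z = 0 in the fibre. -/
def th0 (c : ℂ) : R3 →ₐ[ℂ] Polynomial ℂ :=
  aeval ![3 * Polynomial.X + Polynomial.C (c / 2), 2 * Polynomial.X, 0]

lemma th0_pp (c : ℂ) : th0 c (pp - C c) = 0 := by
  rw [map_sub, th0, aeval_pp, aeval_C]
  unfold P
  simp only [Matrix.cons_val_zero, Matrix.cons_val_one, Matrix.cons_val]
  have h : (Polynomial.C c : Polynomial ℂ) = 2 * Polynomial.C (c / 2) := by
    have h2 : (2 : Polynomial ℂ) = Polynomial.C 2 := (map_ofNat Polynomial.C 2).symm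
    rw [h2, ← Polynomial.C_mul]
    congr 1
    ring
  rw [Polynomial.algebraMap_eq, h]
  ring

def th (c : ℂ) : B c →ₐ[ℂ] Polynomial ℂ :=
  Ideal.Quotient.liftₐ (I c) (th0 c) (by
    intro a ha
    have h : I c ≤ RingHom.ker (th0 c) := by
      rw [I, Ideal.span_le]
      intro x hx
      rw [Set.mem_singleton_iff.mp hx]
      exact th0_pp c
    exact h ha)

lemma th_mk (c : ℂ) (g : R3) : th c (Ideal.Quotient.mk (I c) g) = th0 c g := rfl

lemma th_z (c : ℂ) : th c (zb c) = 0 := by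
  rw [zb, th_mk, th0, aeval_X]; rfl

lemma th_x (c : ℂ) : th c (xb c) = 3 * Polynomial.X + Polynomial.C (c / 2) := by
  rw [xb, th_mk, th0, aeval_X]; rfl

lemma th_y (c : ℂ) : th c (yb c) = 2 * Polynomial.X := by
  rw [yb, th_mk, th0, aeval_X]; rfl

lemma th_surj (c : ℂ) : Function.Surjective (th c) := by
  have h1 : th c (algebraMap ℂ (B c) (1/2) * yb c) = Polynomial.X := by
    rw [map_mul, AlgHom.commutes, yb, th_mk, th0, aeval_X, Polynomial.algebraMap_eq]
    simp only [Matrix.cons_val_one, Matrix.cons_val_zero]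
    have h2 : (2 : Polynomial ℂ) = Polynomial.C 2 := (map_ofNat Polynomial.C 2).symm
    rw [h2, ← mul_assoc, ← Polynomial.C_mul]
    norm_num
  intro g
  refine ⟨Polynomial.aeval (algebraMap ℂ (B c) (1/2) * yb c) g, ?_⟩
  rw [← Polynomial.aeval_algHom_apply, h1, Polynomial.aeval_X_left_apply]

lemma th_factor (c : ℂ) {Q : Type} [CommRing Q] [Algebra ℂ Q] (q : B c →ₐ[ℂ] Q)
    (hz : q (zb c) = 0) (g : B c) :
    q g = Polynomial.aeval (algebraMap ℂ Q (1/2) * q (yb c)) (th c g) := by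
  have hPq := congrArg q (P_b c)
  have e1 : q (P (xb c) (yb c) (zb c)) = P (q (xb c)) (q (yb c)) (q (zb c)) :=
    map_P (q : B c →+* Q) _ _ _
  rw [e1, hz, AlgHom.commutes] at hPq
  have e2 : 2 * q (xb c) - 3 * q (yb c) = algebraMap ℂ Q c := by
    rw [← hPq]; unfold P; ring
  have e5 : algebraMap ℂ Q (c/2) = algebraMap ℂ Q (1/2) * algebraMap ℂ Q c := by
    rw [← map_mul]; congr 1; ring
  have e6 : algebraMap ℂ Q (1/2) * 2 = 1 := by
    have : (2 : Q) = algebraMap ℂ Q 2 := (map_ofNat (algebraMap ℂ Q) 2).symm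
    rw [this, ← map_mul]
    norm_num
  have hcomp : ((Polynomial.aeval (algebraMap ℂ Q (1/2) * q (yb c))).comp (th c)).comp
      (Ideal.Quotient.mkₐ ℂ (I c)) = q.comp (Ideal.Quotient.mkₐ ℂ (I c)) := by
    apply MvPolynomial.algHom_ext
    intro i
    fin_cases i
    · change Polynomial.aeval _ (th c (xb c)) = q (xb c)
      rw [th_x, map_add, map_mul, map_ofNat, Polynomial.aeval_X, Polynomial.aeval_C, e5, ← e2]
      linear_combination (q (xb c)) * e6
    · change Polynomial.aeval _ (th c (yb c)) = q (yb c)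
      rw [th_y, map_mul, map_ofNat, Polynomial.aeval_X]
      linear_combination (q (yb c)) * e6
    · change Polynomial.aeval _ (th c (zb c)) = q (zb c)
      rw [th_z, hz, map_zero]
  obtain ⟨g0, rfl⟩ := Ideal.Quotient.mk_surjective g
  exact (DFunLike.congr_fun hcomp g0).symm

/-- The kernel of th is generated by z. -/
lemma th_ker (c : ℂ) (g : B c) (hg : th c g = 0) : zb c ∣ g := by
  have key : ∀ (q : B c →ₐ[ℂ] (B c ⧸ Ideal.span {zb c})), q = Ideal.Quotient.mkₐ ℂ _ → zb c ∣ g := by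
    intro q hq
    have hz : q (zb c) = 0 := by
      rw [hq]
      exact Ideal.Quotient.eq_zero_iff_mem.mpr (Ideal.subset_span rfl)
    have h := @th_factor c (B c ⧸ Ideal.span {zb c}) _ _ q hz g
    rw [hg, map_zero, hq] at h
    exact Ideal.mem_span_singleton.mp (Ideal.Quotient.eq_zero_iff_mem.mp h)
  exact key _ rfl

/-- z is a non-zero-divisor in the fibre ring. -/
lemma zb_reg (c : ℂ) (g : B c) (h : zb c * g = 0) : g = 0 := by
  obtain ⟨g0, rfl⟩ := Ideal.Quotient.mk_surjective g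
  rw [zb, ← map_mul, Ideal.Quotient.eq_zero_iff_mem, I, Ideal.mem_span_singleton] at h
  obtain ⟨k, hk⟩ := h
  have hX : Prime (X 2 : R3) := X_prime
  have hnd : ¬ (X 2 : R3) ∣ (pp - C c) := by
    rintro ⟨r, hr⟩
    have h1 := congrArg (aeval (![(c + 2) / 2, 0, 0] : Fin 3 → ℂ)) hr
    rw [map_sub, aeval_pp, map_mul, aeval_X, aeval_C] at h1
    simp [P] at h1
    have : (2 : ℂ) = 0 := by linear_combination h1
    exact two_ne_zero this
  have hd : (X 2 : R3) ∣ k := by
    have : (X 2 : R3) ∣ (pp - C c) * k := ⟨g0, hk.symm⟩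
    exact (hX.dvd_or_dvd this).resolve_left hnd
  obtain ⟨k', rfl⟩ := hd
  have h2 : g0 = (pp - C c) * k' := by
    have : X 2 * g0 = X 2 * ((pp - C c) * k') := by rw [hk]; ring
    exact mul_left_cancel₀ (X_ne_zero 2) this
  rw [Ideal.Quotient.eq_zero_iff_mem, I, Ideal.mem_span_singleton]
  exact ⟨k', h2⟩

lemma zb_pow_reg (c : ℂ) (n : ℕ) (g : B c) (h : zb c ^ n * g = 0) : g = 0 := by
  induction n with
  | zero => simpa using h
  | succ n ih =>
    apply ih
    apply zb_reg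
    rw [← h]; ring

def ub (c : ℂ) : B c := zb c ^ 6 * xb c + (1 + zb c) ^ 3
def vb (c : ℂ) : B c := zb c ^ 6 * yb c + (1 + zb c) ^ 2

lemma ub_rel (c : ℂ) : ub c ^ 2 = vb c ^ 3 + zb c ^ 6 * algebraMap ℂ (B c) c := by
  have h := key' (xb c) (yb c) (zb c)
  rw [P_b] at h
  rw [ub, vb, ← h]; ring

/-- evaluation of polynomials in z and v -/
def ev (c : ℂ) : Polynomial (Polynomial ℂ) →+* B c :=
  Polynomial.eval₂RingHom (Polynomial.aeval (zb c) : Polynomial ℂ →ₐ[ℂ] B c).toRingHom (vb c)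

lemma ev_C (c : ℂ) (h : Polynomial ℂ) : ev c (Polynomial.C h) = Polynomial.aeval (zb c) h := by
  simp [ev]

lemma ev_X (c : ℂ) : ev c Polynomial.X = vb c := by
  simp [ev]

/-- every element of the fibre ring is, up to a power of z, of the form A(z,v) + B(z,v) u -/
lemma form (c : ℂ) (g : B c) : ∃ (N : ℕ) (A A' : Polynomial (Polynomial ℂ)),
    zb c ^ N * g = ev c A + ev c A' * ub c := by
  obtain ⟨g0, rfl⟩ := Ideal.Quotient.mk_surjective g
  induction g0 using MvPolynomial.induction_on with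
  | C a =>
    refine ⟨0, Polynomial.C (Polynomial.C a), 0, ?_⟩
    rw [ev_C, Polynomial.aeval_C]
    simp only [pow_zero, one_mul, map_zero, zero_mul, add_zero]
    rfl
  | add p q hp hq =>
    obtain ⟨N, A, A', h⟩ := hp
    obtain ⟨M, D, D', h'⟩ := hq
    have hz : ∀ n : ℕ, ev c (Polynomial.C (Polynomial.X ^ n)) = zb c ^ n := by
      intro n; rw [ev_C]; simp
    refine ⟨N + M, Polynomial.C (Polynomial.X ^ M) * A + Polynomial.C (Polynomial.X ^ N) * D,
      Polynomial.C (Polynomial.X ^ M) * A' + Polynomial.C (Polynomial.X ^ N) * D', ?_⟩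
    simp only [map_add, map_mul, hz]
    linear_combination (zb c ^ M) * h + (zb c ^ N) * h'
  | mul_X p i hp =>
    obtain ⟨N, A, A', h⟩ := hp
    have hz : ∀ f : Polynomial ℂ, ev c (Polynomial.C f) = Polynomial.aeval (zb c) f := ev_C c
    have hrel := ub_rel c
    rw [map_mul]
    fin_cases i
    · change ∃ N A A', zb c ^ N * ((Ideal.Quotient.mk (I c)) p * xb c) = _
      refine ⟨N + 6, A' * (Polynomial.X ^ 3 + Polynomial.C (Polynomial.X ^ 6 * Polynomial.C c))
        - A * Polynomial.C ((1 + Polynomial.X) ^ 3), A - A' * Polynomial.C ((1 + Polynomial.X) ^ 3), ?_⟩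
      simp only [map_add, map_sub, map_mul, map_pow, hz, ev_X, Polynomial.aeval_X, Polynomial.aeval_C,
        map_one]
      have hu : zb c ^ 6 * xb c = ub c - (1 + zb c) ^ 3 := by rw [ub]; ring
      linear_combination (zb c ^ 6 * xb c) * h + (ev c A + ev c A' * ub c) * hu + ev c A' * hrel
    · change ∃ N A A', zb c ^ N * ((Ideal.Quotient.mk (I c)) p * yb c) = _
      refine ⟨N + 6, A * (Polynomial.X - Polynomial.C ((1 + Polynomial.X) ^ 2)),
        A' * (Polynomial.X - Polynomial.C ((1 + Polynomial.X) ^ 2)), ?_⟩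
      simp only [map_add, map_sub, map_mul, map_pow, hz, ev_X, Polynomial.aeval_X,
        map_one]
      have hv : zb c ^ 6 * yb c = vb c - (1 + zb c) ^ 2 := by rw [vb]; ring
      linear_combination (zb c ^ 6 * yb c) * h + (ev c A + ev c A' * ub c) * hv
    · change ∃ N A A', zb c ^ N * ((Ideal.Quotient.mk (I c)) p * zb c) = _
      refine ⟨N, A * Polynomial.C Polynomial.X, A' * Polynomial.C Polynomial.X, ?_⟩
      simp only [map_mul, hz, Polynomial.aeval_X]
      linear_combination (zb c) * h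

abbrev K : Type := RatFunc ℂ

def zk : K := RatFunc.X

lemma zk_ne : zk ≠ 0 := RatFunc.X_ne_zero

def aa (c : ℂ) : K := algebraMap ℂ K c * zk ^ 6

abbrev E (c : ℂ) : Type := CR (aa c)

def zE (c : ℂ) : E c := algebraMap K (E c) zk
def iz (c : ℂ) : E c := algebraMap K (E c) (zk⁻¹)

lemma iz_mul (c : ℂ) : iz c * zE c = 1 := by
  rw [iz, zE, ← map_mul, inv_mul_cancel₀ zk_ne, map_one]

def xE (c : ℂ) : E c := iz c ^ 6 * (elU (aa c) - (1 + zE c) ^ 3)
def yE (c : ℂ) : E c := iz c ^ 6 * (elV (aa c) - (1 + zE c) ^ 2)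

lemma iz6 (c : ℂ) : zE c ^ 6 * iz c ^ 6 = 1 := by
  rw [← mul_pow, mul_comm, iz_mul, one_pow]

lemma xE_rel (c : ℂ) : zE c ^ 6 * xE c + (1 + zE c) ^ 3 = elU (aa c) := by
  rw [xE]
  linear_combination (elU (aa c) - (1 + zE c) ^ 3) * iz6 c

lemma yE_rel (c : ℂ) : zE c ^ 6 * yE c + (1 + zE c) ^ 2 = elV (aa c) := by
  rw [yE]
  linear_combination (elV (aa c) - (1 + zE c) ^ 2) * iz6 c

lemma P_E (c : ℂ) : P (xE c) (yE c) (zE c) = algebraMap ℂ (E c) c := by
  have h := key' (xE c) (yE c) (zE c)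
  rw [xE_rel, yE_rel, rel] at h
  have h2 : algebraMap K (E c) (aa c) = zE c ^ 6 * algebraMap ℂ (E c) c := by
    have e : algebraMap K (E c) (aa c) = algebraMap K (E c) (algebraMap ℂ K c * zk ^ 6) := rfl
    rw [e, map_mul, map_pow, ← IsScalarTower.algebraMap_apply, mul_comm]; rfl
  rw [h2] at h
  have h3 : zE c ^ 6 * P (xE c) (yE c) (zE c) = zE c ^ 6 * algebraMap ℂ (E c) c := by
    rw [← h]; ring
  have h4 := congrArg (fun t => iz c ^ 6 * t) h3
  rw [← mul_assoc, ← mul_assoc, mul_comm (iz c ^ 6), iz6, one_mul, one_mul] at h4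
  exact h4

def io0 (c : ℂ) : R3 →ₐ[ℂ] E c := aeval ![xE c, yE c, zE c]

lemma io0_pp (c : ℂ) : io0 c (pp - C c) = 0 := by
  rw [map_sub, io0, aeval_pp, aeval_C, sub_eq_zero]
  exact P_E c

def io (c : ℂ) : B c →ₐ[ℂ] E c :=
  Ideal.Quotient.liftₐ (I c) (io0 c) (by
    intro a ha
    have h : I c ≤ RingHom.ker (io0 c) := by
      rw [I, Ideal.span_le]
      intro x hx
      rw [Set.mem_singleton_iff.mp hx]
      exact io0_pp c
    exact h ha)

lemma io_mk (c : ℂ) (g : R3) : io c (Ideal.Quotient.mk (I c) g) = io0 c g := rfl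

lemma io_x (c : ℂ) : io c (xb c) = xE c := by
  rw [xb, io_mk, io0, aeval_X]; rfl
lemma io_y (c : ℂ) : io c (yb c) = yE c := by
  rw [yb, io_mk, io0, aeval_X]; rfl
lemma io_z (c : ℂ) : io c (zb c) = zE c := by
  rw [zb, io_mk, io0, aeval_X]; rfl

lemma io_u (c : ℂ) : io c (ub c) = elU (aa c) := by
  rw [ub, map_add, map_mul, map_pow, map_pow, map_add, map_one, io_x, io_z, xE_rel]

lemma io_v (c : ℂ) : io c (vb c) = elV (aa c) := by
  rw [vb, map_add, map_mul, map_pow, map_pow, map_add, map_one, io_y, io_z, yE_rel]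

/-- substitution of a constant for z in the coefficients -/
def cm (ζ : K) : Polynomial (Polynomial ℂ) →+* Polynomial K :=
  Polynomial.mapRingHom (Polynomial.aeval ζ : Polynomial ℂ →ₐ[ℂ] K).toRingHom

lemma T_ev {c d : ℂ} (T : B d →ₐ[ℂ] E c) {ζ : K} (hT : T (zb d) = algebraMap K (E c) ζ)
    (A : Polynomial (Polynomial ℂ)) :
    T (ev d A) = Polynomial.aeval (T (vb d)) (cm ζ A) := by
  have h : (T : B d →+* E c).comp (ev d) =
      (Polynomial.aeval (T (vb d)) : Polynomial K →ₐ[K] E c).toRingHom.comp (cm ζ) := by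
    apply Polynomial.ringHom_ext
    · intro a
      change T (ev d (Polynomial.C a)) = Polynomial.aeval (T (vb d)) (cm ζ (Polynomial.C a))
      rw [ev_C, cm, Polynomial.coe_mapRingHom, Polynomial.map_C, Polynomial.aeval_C,
        ← Polynomial.aeval_algHom_apply, hT]
      exact Polynomial.aeval_algebraMap_apply (E c) ζ a
    · change T (ev d Polynomial.X) = Polynomial.aeval (T (vb d)) (cm ζ Polynomial.X)
      rw [ev_X, cm, Polynomial.coe_mapRingHom, Polynomial.map_X, Polynomial.aeval_X]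
  exact RingHom.congr_fun h A

lemma T_form {c d : ℂ} (T : B d →ₐ[ℂ] E c) {ζ : K} (hζ : ζ ≠ 0)
    (hT : T (zb d) = algebraMap K (E c) ζ) (g : B d) :
    ∃ A A' : Polynomial K, T g = Polynomial.aeval (T (vb d)) A
      + Polynomial.aeval (T (vb d)) A' * T (ub d) := by
  obtain ⟨N, A, A', h⟩ := form d g
  have h1 := congrArg T h
  rw [map_mul, map_pow, map_add, map_mul, hT, T_ev T hT, T_ev T hT] at h1
  refine ⟨Polynomial.C ((ζ⁻¹) ^ N) * cm ζ A, Polynomial.C ((ζ⁻¹) ^ N) * cm ζ A', ?_⟩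
  rw [map_mul, map_mul, Polynomial.aeval_C]
  have h2 : algebraMap K (E c) (ζ⁻¹ ^ N) * algebraMap K (E c) ζ ^ N = 1 := by
    rw [← map_pow, ← map_mul, ← mul_pow, inv_mul_cancel₀ hζ, one_pow, map_one]
  linear_combination (algebraMap K (E c) (ζ⁻¹ ^ N)) * h1 - (T g) * h2

lemma aeval_elV {a : K} (A : Polynomial K) : Polynomial.aeval (elV a) A = A • (1 : CR a) := by
  have h : (Polynomial.aeval (elV a) : Polynomial K →ₐ[K] CR a)
      = IsScalarTower.toAlgHom K (Polynomial K) (CR a) := by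
    apply Polynomial.algHom_ext
    rw [Polynomial.aeval_X]
    rfl
  rw [h, Algebra.smul_def, mul_one]
  rfl

lemma cm_zk_injective : Function.Injective (cm zk) := by
  apply Polynomial.map_injective
  have : (Polynomial.aeval zk : Polynomial ℂ →ₐ[ℂ] K) = IsScalarTower.toAlgHom ℂ (Polynomial ℂ) K := by
    apply Polynomial.algHom_ext
    rw [Polynomial.aeval_X]
    exact RatFunc.algebraMap_X.symm
  rw [this]
  exact IsFractionRing.injective (Polynomial ℂ) K

lemma io_inj (c : ℂ) : Function.Injective (io c) := by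
  rw [injective_iff_map_eq_zero]
  intro g hg
  obtain ⟨N, A, A', h⟩ := form c g
  have h1 := congrArg (io c) h
  rw [map_mul, hg, mul_zero, map_add, map_mul, T_ev (io c) (io_z c), T_ev (io c) (io_z c),
    io_v, io_u, aeval_elV, aeval_elV, smul_mul_assoc, one_mul] at h1
  obtain ⟨h2, h3⟩ := pq_zero h1.symm
  have h4 : A = 0 := cm_zk_injective (by rw [h2, map_zero])
  have h5 : A' = 0 := cm_zk_injective (by rw [h3, map_zero])
  rw [h4, h5, map_zero, zero_mul, add_zero] at h
  exact zb_pow_reg c N g h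

instance (c : ℂ) : IsDomain (B c) := (io_inj c).isDomain (io c : B c →+* E c)

end

end Pool.Agent.Helper641.Fibres
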