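import Mathlib
import Pool.Agent.Helper641.Fibres

set_option autoImplicit false

open Pool.Agent.Helper641.Rigid Pool.Agent.Helper641.Fibres

namespace Pool.Agent.Helper641.NonIso

noncomputable section

/-- An isomorphism of fibre rings sends the function z to a multiple of z. -/
lemma z_dvd {c d : ℂ} (hd : d ≠ 0) (Φ : B d ≃ₐ[ℂ] B c) : zb c ∣ Φ (zb d) := by
  apply th_ker
  let τ : B d →ₐ[ℂ] Polynomial ℂ := (th c).comp (Φ : B d →ₐ[ℂ] B c)
  have hτ : Function.Surjective τ := (th_surj c).comp Φ.surjective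
  have hP : P (τ (xb d)) (τ (yb d)) (τ (zb d)) = Polynomial.C d := by
    have h1 : τ (P (xb d) (yb d) (zb d)) = P (τ (xb d)) (τ (yb d)) (τ (zb d)) :=
      map_P (τ : B d →+* Polynomial ℂ) _ _ _
    rw [← h1, P_b, AlgHom.commutes]; rfl
  rcases curves hd _ _ _ hP with h | ⟨hx, hy, hz⟩
  · exact h
  exfalso
  obtain ⟨a, ha⟩ := Polynomial.natDegree_eq_zero.mp hx
  obtain ⟨b, hb⟩ := Polynomial.natDegree_eq_zero.mp hy
  obtain ⟨e, he⟩ := Polynomial.natDegree_eq_zero.mp hz
  have hall : ∀ g0 : R3, τ (Ideal.Quotient.mk (I d) g0) =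
      Polynomial.C (MvPolynomial.aeval ![a, b, e] g0) := by
    intro g0
    have h : τ.comp (Ideal.Quotient.mkₐ ℂ (I d)) =
        (Algebra.ofId ℂ (Polynomial ℂ)).comp (MvPolynomial.aeval ![a, b, e]) := by
      apply MvPolynomial.algHom_ext
      intro i
      fin_cases i
      · change τ (xb d) = _
        rw [← ha]; simp
      · change τ (yb d) = _
        rw [← hb]; simp
      · change τ (zb d) = _
        rw [← he]; simp
    exact DFunLike.congr_fun h g0
  obtain ⟨g, hg⟩ := hτ Polynomial.X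
  obtain ⟨g0, rfl⟩ := Ideal.Quotient.mk_surjective g
  rw [hall] at hg
  have := congrArg Polynomial.natDegree hg
  rw [Polynomial.natDegree_C, Polynomial.natDegree_X] at this
  exact absurd this (by norm_num)

lemma aeval_zb_inj (c : ℂ) : Function.Injective (Polynomial.aeval (zb c) : Polynomial ℂ →ₐ[ℂ] B c) := by
  rw [injective_iff_map_eq_zero]
  intro h hh
  have h1 := congrArg (io c) (ev_C c h)
  rw [hh, map_zero, T_ev (io c) (io_z c), io_v, aeval_elV] at h1
  have h2 : cm zk (Polynomial.C h) • (1 : CR (aa c)) + (0 : Polynomial K) • elU (aa c) = 0 := by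
    rw [zero_smul, add_zero]; exact h1
  obtain ⟨h3, -⟩ := pq_zero h2
  have h4 : (Polynomial.C h : Polynomial (Polynomial ℂ)) = 0 := cm_zk_injective (by rw [h3, map_zero])
  exact Polynomial.C_eq_zero.mp h4

lemma const_poly (c : ℂ) (g : B c) (κ : K) (hg : io c g = algebraMap K (E c) κ) :
    ∃ (N : ℕ) (h : Polynomial ℂ), zb c ^ N * g = Polynomial.aeval (zb c) h := by
  obtain ⟨N, A, A', h⟩ := form c g
  have h1 := congrArg (io c) h
  rw [map_mul, hg, map_pow, map_add, map_mul, T_ev (io c) (io_z c), T_ev (io c) (io_z c),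
    io_v, io_u, aeval_elV, aeval_elV, smul_mul_assoc, one_mul, io_z] at h1
  have h0 : zE c ^ N * algebraMap K (E c) κ = (Polynomial.C (zk ^ N * κ) : Polynomial K) • (1 : CR (aa c)) := by
    have := algebraMap_eq (a := aa c) (zk ^ N * κ)
    rw [zero_smul, add_zero] at this
    rw [← this, map_mul, map_pow]; rfl
  rw [h0] at h1
  have h2 : (cm zk A - Polynomial.C (zk ^ N * κ)) • (1 : CR (aa c)) + (cm zk A') • elU (aa c) = 0 := by
    rw [sub_smul, h1]; abel
  obtain ⟨h3, h4⟩ := pq_zero h2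
  have hA' : A' = 0 := cm_zk_injective (by rw [h4, map_zero])
  have hinj : Function.Injective (Polynomial.aeval zk : Polynomial ℂ →ₐ[ℂ] K) := by
    have : (Polynomial.aeval zk : Polynomial ℂ →ₐ[ℂ] K) = IsScalarTower.toAlgHom ℂ (Polynomial ℂ) K := by
      apply Polynomial.algHom_ext
      rw [Polynomial.aeval_X]
      exact RatFunc.algebraMap_X.symm
    rw [this]
    exact IsFractionRing.injective (Polynomial ℂ) K
  have hA : A.natDegree = 0 := by
    have h5 : cm zk A = Polynomial.C (zk ^ N * κ) := sub_eq_zero.mp h3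
    have h6 : (cm zk A).natDegree = A.natDegree := Polynomial.natDegree_map_eq_of_injective hinj A
    rw [← h6, h5, Polynomial.natDegree_C]
  obtain ⟨h5, rfl⟩ := Polynomial.natDegree_eq_zero.mp hA
  refine ⟨N, h5, ?_⟩
  rw [h, hA', map_zero, zero_mul, add_zero, ev_C]

/-- the units of the fibre ring are constants -/
lemma unit_const (c : ℂ) (ε ε' : B c) (hε : ε * ε' = 1) : ∃ μ : ℂ, μ ≠ 0 ∧ ε = algebraMap ℂ (B c) μ := by
  have h1 : io c ε * io c ε' = 1 := by rw [← map_mul, hε, map_one]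
  have hne : io c ε ≠ 0 := left_ne_zero_of_mul_eq_one h1
  have hne' : io c ε' ≠ 0 := right_ne_zero_of_mul_eq_one h1
  obtain ⟨m, hm⟩ := exists_nat hne
  obtain ⟨m', hm'⟩ := exists_nat hne'
  have h2 : D (io c ε * io c ε') = 0 := by rw [h1, D_one]
  rw [D_mul, hm, hm'] at h2
  have h3 : m + m' = 0 := by exact_mod_cast h2
  have hm0 : D (io c ε) ≤ 0 := by rw [hm]; have : m = 0 := by omega
                                  rw [this]; rfl
  have hm0' : D (io c ε') ≤ 0 := by rw [hm']; have : m' = 0 := by omega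
                                    rw [this]; rfl
  obtain ⟨κ, hκ⟩ := eq_const_of_D_le hm0
  obtain ⟨κ', hκ'⟩ := eq_const_of_D_le hm0'
  obtain ⟨N, h, hN⟩ := const_poly c ε κ hκ
  obtain ⟨M, h', hM⟩ := const_poly c ε' κ' hκ'
  have h4 : h * h' = Polynomial.X ^ (N + M) := by
    apply aeval_zb_inj c
    rw [map_mul, map_pow, Polynomial.aeval_X, ← hN, ← hM]
    linear_combination (zb c ^ (N + M)) * hε
  have h5 : h ∣ Polynomial.X ^ (N + M) := ⟨h', h4.symm⟩
  obtain ⟨i, -, hi⟩ := (dvd_prime_pow Polynomial.prime_X (N + M)).mp h5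
  obtain ⟨w, hw⟩ := hi.symm
  obtain ⟨a, ha, haw⟩ := Polynomial.isUnit_iff.mp w.isUnit
  have ha0 : a ≠ 0 := ha.ne_zero
  rw [← haw] at hw
  rw [← hw, map_mul, map_pow, Polynomial.aeval_X, Polynomial.aeval_C] at hN
  have hthε : th c ε * th c ε' = 1 := by rw [← map_mul, hε, map_one]
  rcases lt_trichotomy i N with hlt | heq | hgt
  · exfalso
    obtain ⟨k, rfl⟩ : ∃ k, N = i + (k + 1) := ⟨N - i - 1, by omega⟩
    have h6 : zb c ^ i * (zb c ^ (k + 1) * ε - algebraMap ℂ (B c) a) = 0 := by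
      rw [pow_add] at hN
      linear_combination hN
    have h7 := zb_pow_reg c i _ h6
    have h8 := congrArg (th c) h7
    rw [map_sub, map_mul, map_pow, th_z, AlgHom.commutes, map_zero] at h8
    simp at h8
    exact ha0 h8
  · subst heq
    have h6 : zb c ^ i * (ε - algebraMap ℂ (B c) a) = 0 := by
      linear_combination hN
    have h7 := zb_pow_reg c i _ h6
    exact ⟨a, ha0, sub_eq_zero.mp h7⟩
  · exfalso
    obtain ⟨k, rfl⟩ : ∃ k, i = N + (k + 1) := ⟨i - N - 1, by omega⟩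
    have h6 : zb c ^ N * (ε - zb c ^ (k + 1) * algebraMap ℂ (B c) a) = 0 := by
      rw [pow_add] at hN
      linear_combination hN
    have h7 := zb_pow_reg c N _ h6
    have h8 : ε = zb c ^ (k + 1) * algebraMap ℂ (B c) a := sub_eq_zero.mp h7
    rw [h8, map_mul, map_pow, th_z] at hthε
    simp at hthε

/-- The fibres over distinct nonzero values are never isomorphic. -/
theorem noniso {c d : ℂ} (hc : c ≠ 0) (hd : d ≠ 0) (Φ : B d ≃ₐ[ℂ] B c) : c = d := by
  obtain ⟨ε, hε⟩ := z_dvd hd Φ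
  obtain ⟨ε', hε'⟩ := z_dvd hc Φ.symm
  have hunit : ε * Φ ε' = 1 := by
    have h1 := congrArg Φ hε'
    rw [AlgEquiv.apply_symm_apply, map_mul, hε] at h1
    have h2 : zb c * (1 - ε * Φ ε') = 0 := by linear_combination h1
    exact (sub_eq_zero.mp (zb_reg c _ h2)).symm
  obtain ⟨μ, hμ0, hμ⟩ := unit_const c ε _ hunit
  rw [hμ] at hε
  let T : B d →ₐ[ℂ] E c := (io c).comp (Φ : B d →ₐ[ℂ] B c)
  have hTΦ : ∀ g, T g = io c (Φ g) := fun _ => rfl
  have hT : T (zb d) = algebraMap K (E c) (zk * algebraMap ℂ K μ) := by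
    rw [hTΦ, hε, map_mul, io_z, AlgHom.commutes, map_mul, zE, ← IsScalarTower.algebraMap_apply]
  have hζ : zk * algebraMap ℂ K μ ≠ 0 := by
    apply mul_ne_zero zk_ne
    rw [Ne, map_eq_zero]
    exact hμ0
  obtain ⟨A, A', hAA⟩ := T_form T hζ hT (Φ.symm (vb c))
  rw [hTΦ (Φ.symm (vb c)), AlgEquiv.apply_symm_apply, io_v] at hAA
  have hrel : T (ub d) ^ 2 = T (vb d) ^ 3
      + algebraMap K (E c) ((zk * algebraMap ℂ K μ) ^ 6 * algebraMap ℂ K d) := by
    have h1 := congrArg T (ub_rel d)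
    rw [map_pow, map_add, map_pow, map_mul, map_pow, AlgHom.commutes, hT] at h1
    have e : algebraMap K (E c) ((zk * algebraMap ℂ K μ) ^ 6 * algebraMap ℂ K d)
        = (algebraMap K (E c) (zk * algebraMap ℂ K μ)) ^ 6 * algebraMap ℂ (E c) d := by
      rw [map_mul _ (_ ^ 6), map_pow, ← IsScalarTower.algebraMap_apply ℂ K (E c)]
    rw [h1, e]
  obtain ⟨α, hα1, hα2⟩ := rigid hrel hAA
  have hα3 : α ^ 2 * algebraMap ℂ K c = algebraMap ℂ K (μ ^ 6 * d) := by
    have h6 : zk ^ 6 ≠ 0 := pow_ne_zero 6 zk_ne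
    apply mul_left_cancel₀ h6
    rw [aa] at hα2
    rw [map_mul, map_pow]
    linear_combination hα2
  obtain ⟨s, hs⟩ := IsAlgClosed.exists_pow_nat_eq (μ ^ 6 * d / c) (n := 2) (by norm_num)
  have hs2 : s ^ 2 * c = μ ^ 6 * d := by rw [hs]; field_simp
  have hα4 : (α - algebraMap ℂ K s) * (α + algebraMap ℂ K s) = 0 := by
    have hcK : algebraMap ℂ K c ≠ 0 := by
      rw [Ne, map_eq_zero]; exact hc
    apply mul_left_cancel₀ hcK
    rw [mul_zero]
    have h2 := congrArg (algebraMap ℂ K) hs2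
    rw [map_mul, map_pow] at h2
    linear_combination hα3 - h2
  obtain ⟨α0, hα0, hα0c⟩ : ∃ α0 : ℂ, α = algebraMap ℂ K α0 ∧ α0 ^ 2 * c = μ ^ 6 * d := by
    rcases mul_eq_zero.mp hα4 with h | h
    · exact ⟨s, sub_eq_zero.mp h, hs2⟩
    · refine ⟨-s, ?_, by rw [← hs2]; ring⟩
      rw [map_neg]; linear_combination h
  have hΦu : Φ (ub d) = algebraMap ℂ (B c) α0 * ub c := by
    apply io_inj c
    rw [← hTΦ, hα1, map_mul, io_u, AlgHom.commutes, hα0, ← IsScalarTower.algebraMap_apply ℂ K (E c)]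
  have hΦu2 : (zb c * algebraMap ℂ (B c) μ) ^ 6 * Φ (xb d) + (1 + zb c * algebraMap ℂ (B c) μ) ^ 3
      = algebraMap ℂ (B c) α0 * (zb c ^ 6 * xb c + (1 + zb c) ^ 3) := by
    rw [ub, map_add, map_mul, map_pow, map_pow, map_add, map_one, hε] at hΦu
    rw [hΦu, ub]
  have hα01 : α0 = 1 := by
    have h1 := congrArg (th c) hΦu2
    simp only [map_add, map_mul, map_pow, th_z, map_one, AlgHom.commutes] at h1
    have h2 : (1 : Polynomial ℂ) = Polynomial.C α0 := by
      have : (algebraMap ℂ (Polynomial ℂ)) α0 = Polynomial.C α0 := rfl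
      rw [← this]
      linear_combination h1
    rw [← Polynomial.C_1] at h2
    exact (Polynomial.C_injective h2).symm
  have hμ1 : μ = 1 := by
    rw [hα01, map_one, one_mul] at hΦu2
    set M := algebraMap ℂ (B c) μ with hM
    have h1 : zb c * (zb c ^ 5 * (M ^ 6 * Φ (xb d) - xb c) + (3 * (M - 1) + 3 * (M ^ 2 - 1) * zb c
        + (M ^ 3 - 1) * zb c ^ 2)) = 0 := by
      linear_combination hΦu2
    have h2 := zb_reg c _ h1
    have h3 := congrArg (th c) h2
    simp only [map_add, map_mul, map_pow, map_sub, th_z, map_one, map_zero] at h3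
    have h4 : th c M = Polynomial.C μ := by rw [hM, AlgHom.commutes]; rfl
    have h5 : th c 3 = 3 := map_ofNat (th c) 3
    rw [h4, h5] at h3
    have h6 : (3 : Polynomial ℂ) * (Polynomial.C μ - 1) = 0 := by
      linear_combination h3
    have h7 : (3 : Polynomial ℂ) ≠ 0 := by
      rw [← map_ofNat Polynomial.C 3]
      exact Polynomial.C_ne_zero.mpr (by norm_num)
    have h8 := (mul_eq_zero.mp h6).resolve_left h7
    have h9 : Polynomial.C μ = Polynomial.C (1 : ℂ) := by rw [Polynomial.C_1]; exact sub_eq_zero.mp h8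
    exact Polynomial.C_injective h9
  rw [hα01, hμ1] at hα0c
  linear_combination hα0c

end

end Pool.Agent.Helper641.NonIso
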