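import Mathlib
import Pool.Agent.Helper641.NonIso

set_option autoImplicit false

open Pool.Agent.Helper641.Rigid Pool.Agent.Helper641.Fibres

namespace Pool.Agent.Helper641.Contract

noncomputable section

lemma pp_prime : Prime pp := by
  have h1 : (I 0).IsPrime := Ideal.Quotient.isDomain_iff_prime _ |>.mp (inferInstance : IsDomain (B 0))
  have h2 : I 0 = Ideal.span {pp} := by rw [I, MvPolynomial.C_0, sub_zero]
  rw [h2] at h1
  refine (Ideal.span_singleton_prime ?_).mp h1
  intro h
  have h3 := congrArg (MvPolynomial.aeval (![1, 0, 0] : Fin 3 → ℂ)) h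
  rw [aeval_pp, map_zero] at h3
  simp [P] at h3

lemma pp_irreducible : Irreducible pp := pp_prime.irreducible

lemma eval_pp (x : Fin 3 → ℂ) : MvPolynomial.eval x pp = P (x 0) (x 1) (x 2) := by
  rw [← aeval_pp x]; rfl

/-- the zero set -/
abbrev X0 : Type := ↥({x : Fin 3 → ℂ | MvPolynomial.eval x pp = 0} : Set (Fin 3 → ℂ))

def pu (x : Fin 3 → ℂ) : ℂ := x 2 ^ 6 * x 0 + (1 + x 2) ^ 3
def pv (x : Fin 3 → ℂ) : ℂ := x 2 ^ 6 * x 1 + (1 + x 2) ^ 2
/-- the parameter of the cusp -/
def pS (x : Fin 3 → ℂ) : ℂ := pu x / pv x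

lemma rel0 (x : X0) : pu x.1 ^ 2 = pv x.1 ^ 3 := by
  have h := x.2
  rw [Set.mem_ofPred_eq, eval_pp] at h
  have h2 := key' (x.1 0) (x.1 1) (x.1 2)
  rw [h] at h2
  unfold pu pv
  linear_combination h2

lemma S_sq (x : X0) : pS x.1 ^ 2 = pv x.1 := by
  have h := rel0 x
  by_cases hv : pv x.1 = 0
  · rw [pS, hv]; simp
  · rw [pS, div_pow, h]; field_simp

lemma S_cube (x : X0) : pS x.1 ^ 3 = pu x.1 := by
  have h := rel0 x
  by_cases hv : pv x.1 = 0
  · have hu : pu x.1 = 0 := by
      rw [hv] at h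
      exact pow_eq_zero_iff two_ne_zero |>.mp (by rw [h]; ring)
    rw [pS, hv, hu]; simp
  · rw [pS, div_pow, ← h]
    have hu : pu x.1 ≠ 0 := by
      intro hu
      rw [hu] at h
      exact hv (pow_eq_zero_iff three_ne_zero |>.mp (by rw [← h]; ring))
    field_simp

lemma coord_cont (i : Fin 3) : Continuous (fun x : X0 => x.1 i) :=
  (continuous_apply i).comp continuous_subtype_val

lemma pS_continuous : Continuous (fun x : X0 => pS x.1) := by
  have hu : Continuous (fun x : X0 => pu x.1) :=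
    (((coord_cont 2).pow 6).mul (coord_cont 0)).add ((continuous_const.add (coord_cont 2)).pow 3)
  have hv : Continuous (fun x : X0 => pv x.1) :=
    (((coord_cont 2).pow 6).mul (coord_cont 1)).add ((continuous_const.add (coord_cont 2)).pow 2)
  rw [continuous_iff_continuousAt]
  intro x
  by_cases hx : pv x.1 = 0
  · -- |S|^2 = |v|
    have hS0 : pS x.1 = 0 := by rw [pS, hx, div_zero]
    rw [ContinuousAt, hS0, tendsto_zero_iff_norm_tendsto_zero]
    have h1 : (fun y : X0 => ‖pS y.1‖) = fun y : X0 => Real.sqrt ‖pv y.1‖ := by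
      funext y
      rw [← S_sq y, norm_pow, Real.sqrt_sq (norm_nonneg _)]
    rw [h1]
    have h2 : Continuous (fun y : X0 => Real.sqrt ‖pv y.1‖) := by fun_prop
    have h3 := h2.tendsto x
    rw [hx] at h3
    simpa using h3
  · exact hu.continuousAt.div hv.continuousAt hx

/-- inverse of (1+z)^2 modulo z^6 -/
def cA (z : ℂ) : ℂ := 1 - 2 * z + 3 * z ^ 2 - 4 * z ^ 3 + 5 * z ^ 4 - 6 * z ^ 5
def cB (z : ℂ) : ℂ := 7 + 6 * z

lemma bez (z : ℂ) : cA z * (1 + z) ^ 2 + cB z * z ^ 6 = 1 := by
  unfold cA cB; ring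

def fwd (q : ℂ × ℂ) : Fin 3 → ℂ :=
  ![q.1 * ((1 + q.2 + q.2 ^ 6 * q.1) ^ 2 + (1 + q.2 + q.2 ^ 6 * q.1) * (1 + q.2) + (1 + q.2) ^ 2),
    q.1 * ((1 + q.2 + q.2 ^ 6 * q.1) + (1 + q.2)), q.2]

lemma pu_fwd (q : ℂ × ℂ) : pu (fwd q) = (1 + q.2 + q.2 ^ 6 * q.1) ^ 3 := by
  simp only [pu, fwd, Matrix.cons_val_zero, Matrix.cons_val_one, Matrix.cons_val]
  ring

lemma pv_fwd (q : ℂ × ℂ) : pv (fwd q) = (1 + q.2 + q.2 ^ 6 * q.1) ^ 2 := by
  simp only [pv, fwd, Matrix.cons_val_zero, Matrix.cons_val_one, Matrix.cons_val]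
  ring

lemma fwd_mem (q : ℂ × ℂ) : fwd q ∈ ({x : Fin 3 → ℂ | MvPolynomial.eval x pp = 0} : Set (Fin 3 → ℂ)) := by
  rw [Set.mem_ofPred_eq, eval_pp]
  unfold P fwd
  simp only [Matrix.cons_val_zero, Matrix.cons_val_one, Matrix.cons_val]
  ring

def bwd (x : X0) : ℂ × ℂ :=
  (cA (x.1 2) * (x.1 0 - pS x.1 * x.1 1) + cB (x.1 2) * (pS x.1 - (1 + x.1 2)), x.1 2)

lemma pS_fwd (q : ℂ × ℂ) : pS (fwd q) = 1 + q.2 + q.2 ^ 6 * q.1 := by
  rw [pS, pu_fwd, pv_fwd]
  by_cases h : 1 + q.2 + q.2 ^ 6 * q.1 = 0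
  · rw [h]; simp
  · field_simp

def homeo : (ℂ × ℂ) ≃ₜ X0 where
  toFun q := ⟨fwd q, fwd_mem q⟩
  invFun := bwd
  left_inv q := by
    obtain ⟨σ, z⟩ := q
    unfold bwd
    simp only [pS_fwd]
    simp only [fwd, Matrix.cons_val_zero, Matrix.cons_val_one, Matrix.cons_val]
    ext
    · simp only
      linear_combination σ * bez z
    · rfl
  right_inv x := by
    apply Subtype.ext
    have h2 := S_sq x
    have h3 := S_cube x
    have hx := x.2
    rw [Set.mem_ofPred_eq, eval_pp] at hx
    set S := pS x.1 with hS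
    set a := x.1 0 with ha
    set b := x.1 1 with hb
    set z := x.1 2 with hz
    have hu : z ^ 6 * a + (1 + z) ^ 3 = S ^ 3 := by rw [h3, pu]
    have hv : z ^ 6 * b + (1 + z) ^ 2 = S ^ 2 := by rw [h2, pv]
    set σ := cA z * (a - S * b) + cB z * (S - (1 + z)) with hσ
    have e1 : z ^ 6 * σ = S - (1 + z) := by
      rw [hσ]
      linear_combination cA z * hu - cA z * S * hv + (S - (1 + z)) * bez z
    have hgoal : b = σ * (S + (1 + z)) ∧ a = σ * (S ^ 2 + S * (1 + z) + (1 + z) ^ 2) := by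
      by_cases hz0 : z = 0
      · have hS1 : S = 1 := by
          rw [hz0] at hu hv
          have e3 : S ^ 3 = 1 := by linear_combination -hu
          have e2 : S ^ 2 = 1 := by linear_combination -hv
          calc S = S * S ^ 2 := by rw [e2, mul_one]
            _ = 1 := by rw [← e3]; ring
        rw [hz0] at hx
        have hab : 2 * a - 3 * b = 0 := by
          unfold P at hx; linear_combination hx
        have hσ2 : σ = a - b := by
          rw [hσ, hz0, hS1]; unfold cA cB; ring
        rw [hσ2, hS1, hz0]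
        constructor
        · linear_combination -hab
        · linear_combination -hab
      · have h6 : z ^ 6 ≠ 0 := pow_ne_zero 6 hz0
        constructor
        · apply mul_left_cancel₀ h6
          linear_combination hv - (S + (1 + z)) * e1
        · apply mul_left_cancel₀ h6
          linear_combination hu - (S ^ 2 + S * (1 + z) + (1 + z) ^ 2) * e1
    have hS' : 1 + z + z ^ 6 * σ = S := by rw [e1]; ring
    show fwd (bwd x) = x.1
    have hb' : bwd x = (σ, z) := rfl
    rw [hb']
    funext i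
    fin_cases i
    · simp only [fwd, hS']
      exact hgoal.2.symm
    · simp only [fwd, hS']
      exact hgoal.1.symm
    · rfl
  continuous_toFun := by
    apply Continuous.subtype_mk
    unfold fwd
    refine continuous_pi ?_
    intro i
    fin_cases i
    · simp only [Fin.zero_eta, Matrix.cons_val_zero]; fun_prop
    · simp only [Fin.mk_one, Matrix.cons_val_one, Matrix.cons_val_zero]; fun_prop
    · simp only [Fin.reduceFinMk, Matrix.cons_val]; fun_prop
  continuous_invFun := by
    have hS := pS_continuous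
    have hA : Continuous cA := by unfold cA; fun_prop
    have hB : Continuous cB := by unfold cB; fun_prop
    have c0 := coord_cont 0
    have c1 := coord_cont 1
    have c2 := coord_cont 2
    exact (((hA.comp c2).mul (c0.sub (hS.mul c1))).add
      ((hB.comp c2).mul (hS.sub (continuous_const.add c2)))).prodMk c2

instance : ContractibleSpace X0 := homeo.symm.contractibleSpace

end

end Pool.Agent.Helper641.Contract
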