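import Mathlib

set_option autoImplicit false

namespace Pool.Agent.Helper641.Deltoid

noncomputable section

open MvPolynomial

/-- the deltoid, as a polynomial in two variables -/
def ff : MvPolynomial (Fin 2) ℂ :=
  X 0 ^ 3 + X 1 ^ 3 - C (1 / 4) * X 0 ^ 2 * X 1 ^ 2 - C (9 / 2) * X 0 * X 1 + C (27 / 4)

lemma eval_ff (q : Fin 2 → ℂ) : eval q ff =
    q 0 ^ 3 + q 1 ^ 3 - (1 / 4) * q 0 ^ 2 * q 1 ^ 2 - (9 / 2) * q 0 * q 1 + 27 / 4 := by
  simp [ff]

lemma eval_d0 (q : Fin 2 → ℂ) : eval q (pderiv 0 ff) =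
    3 * q 0 ^ 2 - (1 / 2) * q 0 * q 1 ^ 2 - (9 / 2) * q 1 := by
  simp [ff, pderiv_X]
  ring

lemma eval_d1 (q : Fin 2 → ℂ) : eval q (pderiv 1 ff) =
    3 * q 1 ^ 2 - (1 / 2) * q 0 ^ 2 * q 1 - (9 / 2) * q 0 := by
  simp [ff, pderiv_X]
  ring

/-- no polynomial root -/
lemma no_root (ρ : Polynomial ℂ) (h : ρ ^ 3 - Polynomial.C (1/4) * Polynomial.X ^ 2 * ρ ^ 2
    - Polynomial.C (9/2) * Polynomial.X * ρ + (Polynomial.X ^ 3 + Polynomial.C (27/4)) = 0) : False := by
  set Y : Polynomial ℂ := Polynomial.X with hY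
  have h1 : ρ ^ 2 * (ρ - Polynomial.C (1/4) * Y ^ 2)
      = Polynomial.C (9/2) * Y * ρ - (Y ^ 3 + Polynomial.C (27/4)) := by
    linear_combination h
  by_cases hq : ρ - Polynomial.C (1/4) * Y ^ 2 = 0
  · have hρ : ρ = Polynomial.C (1/4) * Y ^ 2 := sub_eq_zero.mp hq
    rw [hq, mul_zero, hρ] at h1
    have h2 := congrArg (Polynomial.eval 0) h1
    simp [hY] at h2
  by_cases hρ0 : ρ = 0
  · rw [hρ0] at h
    have h2 := congrArg (Polynomial.eval 0) h
    simp [hY] at h2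
  have hdeg : (ρ ^ 2 * (ρ - Polynomial.C (1/4) * Y ^ 2)).natDegree
      = 2 * ρ.natDegree + (ρ - Polynomial.C (1/4) * Y ^ 2).natDegree := by
    rw [Polynomial.natDegree_mul (pow_ne_zero 2 hρ0) hq, Polynomial.natDegree_pow]
  have hYd : (Polynomial.C (1/4) * Y ^ 2 : Polynomial ℂ).natDegree = 2 := by
    rw [hY]; exact Polynomial.natDegree_C_mul_X_pow 2 (1/4) (by norm_num)
  have hC : (Y ^ 3 + Polynomial.C (27/4) : Polynomial ℂ).natDegree = 3 := by
    rw [hY]; compute_degree!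
  have hM : (Polynomial.C (9/2) * Y * ρ).natDegree = ρ.natDegree + 1 := by
    rw [Polynomial.natDegree_mul _ hρ0, hY, Polynomial.natDegree_C_mul_X _ (by norm_num)]
    · ring
    · rw [hY]
      exact mul_ne_zero (Polynomial.C_ne_zero.mpr (by norm_num)) Polynomial.X_ne_zero
  rcases Nat.lt_or_ge 2 ρ.natDegree with hd | hd
  · have e1 : (ρ - Polynomial.C (1/4) * Y ^ 2).natDegree = ρ.natDegree :=
      Polynomial.natDegree_sub_eq_left_of_natDegree_lt (by omega)
    have e2 : (Polynomial.C (9/2) * Y * ρ - (Y ^ 3 + Polynomial.C (27/4))).natDegree ≤ ρ.natDegree + 1 := by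
      refine (Polynomial.natDegree_sub_le _ _).trans ?_
      rw [hM, hC]; omega
    rw [← h1, hdeg, e1] at e2
    omega
  · rcases Nat.lt_or_ge ρ.natDegree 2 with hd2 | hd2
    · have e1 : (ρ - Polynomial.C (1/4) * Y ^ 2).natDegree = 2 := by
        rw [Polynomial.natDegree_sub_eq_right_of_natDegree_lt (by omega), hYd]
      have e2 : (Polynomial.C (9/2) * Y * ρ - (Y ^ 3 + Polynomial.C (27/4))).natDegree = 3 := by
        rw [Polynomial.natDegree_sub_eq_right_of_natDegree_lt (by omega), hC]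
      rw [← h1, hdeg, e1] at e2
      omega
    · have e2 : (Polynomial.C (9/2) * Y * ρ - (Y ^ 3 + Polynomial.C (27/4))).natDegree ≤ 3 := by
        refine (Polynomial.natDegree_sub_le _ _).trans ?_
        rw [hM, hC]; omega
      rw [← h1, hdeg] at e2
      omega

lemma ff_irreducible : Irreducible ff := by
  have hmap : finSuccEquiv ℂ 1 ff = Polynomial.X ^ 3
      - Polynomial.C (C (1/4) * X 0 ^ 2) * Polynomial.X ^ 2
      - Polynomial.C (C (9/2) * X 0) * Polynomial.X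
      + Polynomial.C (X 0 ^ 3 + C (27/4)) := by
    have h0 : finSuccEquiv ℂ 1 (X 0) = Polynomial.X := finSuccEquiv_X_zero
    have h1 : finSuccEquiv ℂ 1 (X 1) = Polynomial.C (X 0) := finSuccEquiv_X_succ (j := 0)
    have hC : ∀ a : ℂ, finSuccEquiv ℂ 1 (C a) = Polynomial.C (C a) := by
      intro a
      exact (finSuccEquiv ℂ 1).commutes a
    simp only [ff, map_add, map_sub, map_mul, map_pow, h0, h1, hC]
    ring
  rw [← MulEquiv.irreducible_iff (finSuccEquiv ℂ 1), hmap]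
  set G : Polynomial (MvPolynomial (Fin 1) ℂ) := Polynomial.X ^ 3
      - Polynomial.C (C (1/4) * X 0 ^ 2) * Polynomial.X ^ 2
      - Polynomial.C (C (9/2) * X 0) * Polynomial.X
      + Polynomial.C (X 0 ^ 3 + C (27/4)) with hG
  have hmon : G.Monic := by rw [hG]; monicity!
  have hdeg : G.natDegree = 3 := by rw [hG]; compute_degree!
  rw [hmon.irreducible_iff_roots_eq_zero_of_degree_le_three (by omega) (by omega)]
  by_contra hroots
  obtain ⟨r, hr⟩ := Multiset.exists_mem_of_ne_zero hroots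
  rw [Polynomial.mem_roots hmon.ne_zero, Polynomial.IsRoot.def] at hr
  have h2 := congrArg (MvPolynomial.aeval (fun _ : Fin 1 => (Polynomial.X : Polynomial ℂ))) hr
  apply no_root (MvPolynomial.aeval (fun _ : Fin 1 => (Polynomial.X : Polynomial ℂ)) r)
  rw [hG] at h2
  simp only [Polynomial.eval_add, Polynomial.eval_sub, Polynomial.eval_mul, Polynomial.eval_pow,
    Polynomial.eval_X, Polynomial.eval_C, map_add, map_sub, map_mul, map_pow, map_zero,
    MvPolynomial.aeval_X, MvPolynomial.aeval_C, Polynomial.algebraMap_eq] at h2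
  linear_combination h2

/-- the curve -/
abbrev Z : Type := ↥({z : Fin 2 → ℂ | MvPolynomial.eval z ff = 0} : Set (Fin 2 → ℂ))

def xx (t : ℂ) : ℂ := 2 * t + (t⁻¹) ^ 2
def yy (t : ℂ) : ℂ := t ^ 2 + 2 * t⁻¹

def phi (t : ℂ) : Fin 2 → ℂ := ![xx t, yy t]

@[simp] lemma phi0 (t : ℂ) : phi t 0 = xx t := rfl
@[simp] lemma phi1 (t : ℂ) : phi t 1 = yy t := rfl

lemma eval_phi {t : ℂ} (ht : t ≠ 0) : MvPolynomial.eval (phi t) ff = 0 := by
  rw [eval_ff, phi0, phi1, xx, yy]
  field_simp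
  ring

/-- the inverse of the parametrisation -/
def inv (q : Fin 2 → ℂ) : ℂ :=
  if q 0 ^ 2 - 3 * q 1 = 0 then q 0 / 3 else (q 0 * q 1 - 9) / (2 * (q 0 ^ 2 - 3 * q 1))

lemma xx_yy (t : ℂ) (ht : t ≠ 0) : xx t ^ 2 - 3 * yy t = (t - (t⁻¹) ^ 2) ^ 2 := by
  unfold xx yy; field_simp; ring

lemma xx_yy' (t : ℂ) (ht : t ≠ 0) : xx t * yy t - 9 = 2 * t * (t - (t⁻¹) ^ 2) ^ 2 := by
  unfold xx yy; field_simp; ring

lemma inv_phi {t : ℂ} (ht : t ≠ 0) : inv (phi t) = t := by
  unfold inv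
  rw [phi0, phi1, xx_yy t ht, xx_yy' t ht]
  split_ifs with h
  · have h1 : t - (t⁻¹) ^ 2 = 0 := pow_eq_zero_iff two_ne_zero |>.mp h
    rw [xx]
    linear_combination (-1 / 3) * h1
  · rw [div_eq_iff (mul_ne_zero two_ne_zero h)]; ring

lemma ne_of_mem {q : Fin 2 → ℂ} (hq : MvPolynomial.eval q ff = 0) : inv q ≠ 0 ∧ phi (inv q) = q := by
  rw [eval_ff] at hq
  set a := q 0 with ha
  set b := q 1 with hb
  have hphi : ∀ t : ℂ, xx t = a → yy t = b → phi t = q := by
    intro t h1 h2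
    funext i
    fin_cases i
    · exact h1
    · exact h2
  unfold inv
  split_ifs with h
  · rw [← ha, ← hb] at h
    -- b = a^2/3; then a^3 = 27
    have hbb : b = a ^ 2 / 3 := by linear_combination (-1/3) * h
    have h1 : (a ^ 3 - 27) ^ 2 = 0 := by
      rw [hbb] at hq
      linear_combination 108 * hq
    have h2 : a ^ 3 = 27 := sub_eq_zero.mp (pow_eq_zero_iff two_ne_zero |>.mp h1)
    have ha0 : a ≠ 0 := by
      intro h0; rw [h0] at h2; norm_num at h2
    refine ⟨by rw [← ha]; exact div_ne_zero ha0 three_ne_zero, ?_⟩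
    apply hphi
    · rw [← ha, xx]; field_simp; linear_combination -h2
    · rw [← ha, yy, hbb]; field_simp; linear_combination -2 * h2
  · rw [← ha, ← hb] at h ⊢
    set w := a ^ 2 - 3 * b with hw
    have hw2 : (2 * w : ℂ) ≠ 0 := mul_ne_zero two_ne_zero h
    set t := (a * b - 9) / (2 * w) with ht
    have ht1 : t * (2 * w) = a * b - 9 := by rw [ht]; field_simp
    have htne : t ≠ 0 := by
      intro h0
      rw [h0, zero_mul] at ht1
      have hab : a * b = 9 := by linear_combination -ht1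
      -- a^3 + b^3 = 54
      have h3 : a ^ 3 + b ^ 3 = 54 := by
        linear_combination hq + (1/4) * (a * b + 27) * hab
      have h4 : (a ^ 3 - 27) ^ 2 = 0 := by
        linear_combination a ^ 3 * h3 - (a ^ 2 * b ^ 2 + 9 * a * b + 81) * hab
      have h5 : a ^ 3 = 27 := sub_eq_zero.mp (pow_eq_zero_iff two_ne_zero |>.mp h4)
      have ha0 : a ≠ 0 := by
        intro h0; rw [h0] at h5; norm_num at h5
      apply h
      apply mul_left_cancel₀ ha0
      rw [mul_zero, hw]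
      linear_combination h5 - 3 * hab
    refine ⟨htne, ?_⟩
    -- the cubic T^3 - a T^2 + b T - 1 has double root t
    have hdisc : a ^ 2 * b ^ 2 - 4 * a ^ 3 - 4 * b ^ 3 + 18 * a * b - 27 = 0 := by
      linear_combination -4 * hq
    have hder : 3 * t ^ 2 - 2 * a * t + b = 0 := by
      have h6 : (2 * w) ^ 2 * (3 * t ^ 2 - 2 * a * t + b) = 0 := by
        have : (2 * w) ^ 2 * (3 * t ^ 2 - 2 * a * t + b)
          = 3 * (t * (2 * w)) ^ 2 - 2 * a * (t * (2 * w)) * (2 * w) + b * (2 * w) ^ 2 := by ring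
        rw [this, ht1, hw]
        linear_combination (-9) * hdisc
      exact (mul_eq_zero.mp h6).resolve_left (pow_ne_zero 2 hw2)
    have hroot : t ^ 3 - a * t ^ 2 + b * t - 1 = 0 := by
      have h6 : (2 * w) ^ 3 * (t ^ 3 - a * t ^ 2 + b * t - 1) = 0 := by
        have : (2 * w) ^ 3 * (t ^ 3 - a * t ^ 2 + b * t - 1)
          = (t * (2 * w)) ^ 3 - a * (t * (2 * w)) ^ 2 * (2 * w) + b * (t * (2 * w)) * (2 * w) ^ 2
            - (2 * w) ^ 3 := by ring
        rw [this, ht1, hw]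
        linear_combination (27 + 2 * a ^ 3 - 9 * a * b) * hdisc
      exact (mul_eq_zero.mp h6).resolve_left (pow_ne_zero 3 hw2)
    apply hphi
    · rw [xx]
      field_simp
      linear_combination t * hder - hroot
    · rw [yy]
      field_simp
      linear_combination t * hder - 2 * hroot

/-- crude bound for roots of the cubic -/
lemma norm_bound {t a b : ℂ} (h : t ^ 3 = a * t ^ 2 - b * t + 1) : ‖t‖ ≤ 1 + ‖a‖ + ‖b‖ := by
  by_contra hcon
  push Not at hcon
  have hA := norm_nonneg a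
  have hB := norm_nonneg b
  have h1 : 1 < ‖t‖ := by linarith
  have h2 : ‖t‖ ^ 3 ≤ ‖a‖ * ‖t‖ ^ 2 + ‖b‖ * ‖t‖ + 1 := by
    calc ‖t‖ ^ 3 = ‖a * t ^ 2 - b * t + 1‖ := by rw [← norm_pow, h]
      _ ≤ ‖a * t ^ 2 - b * t‖ + ‖(1 : ℂ)‖ := norm_add_le _ _
      _ ≤ ‖a * t ^ 2‖ + ‖b * t‖ + ‖(1 : ℂ)‖ := by gcongr; exact norm_sub_le _ _
      _ = ‖a‖ * ‖t‖ ^ 2 + ‖b‖ * ‖t‖ + 1 := by rw [norm_mul, norm_mul, norm_pow, norm_one]
  have h3 : ‖b‖ * ‖t‖ ≤ ‖b‖ * ‖t‖ ^ 2 := by
    apply mul_le_mul_of_nonneg_left _ hB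
    nlinarith
  have h4 : (1 : ℝ) ≤ ‖t‖ ^ 2 := by nlinarith
  have h5 : ‖t‖ ^ 3 ≤ (‖a‖ + ‖b‖ + 1) * ‖t‖ ^ 2 := by nlinarith
  have h6 : 0 < ‖t‖ ^ 2 := by positivity
  have h7 : ‖t‖ ≤ ‖a‖ + ‖b‖ + 1 := by
    by_contra h8
    push Not at h8
    have := mul_lt_mul_of_pos_right h8 h6
    nlinarith
  linarith

/-- distance from a cusp -/
lemma cusp_bound {t a b t0 : ℂ} (h : t ^ 3 = a * t ^ 2 - b * t + 1) (h0 : t0 ^ 3 = 1) :
    ‖t - t0‖ ^ 3 ≤ ‖a - 3 * t0‖ * (1 + ‖a‖ + ‖b‖) ^ 2 + ‖b - 3 * t0 ^ 2‖ * (1 + ‖a‖ + ‖b‖) := by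
  have hb := norm_bound h
  have e : (t - t0) ^ 3 = (a - 3 * t0) * t ^ 2 - (b - 3 * t0 ^ 2) * t := by
    linear_combination h - h0
  rw [← norm_pow, e]
  refine (norm_sub_le _ _).trans ?_
  rw [norm_mul, norm_mul, norm_pow]
  gcongr

lemma cubic_phi {t : ℂ} (ht : t ≠ 0) : t ^ 3 = xx t * t ^ 2 - yy t * t + 1 := by
  unfold xx yy; field_simp; ring

lemma cubic_inv (q : Z) : inv q.1 ^ 3 = q.1 0 * inv q.1 ^ 2 - q.1 1 * inv q.1 + 1 := by
  obtain ⟨h1, h2⟩ := ne_of_mem q.2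
  have h3 := cubic_phi h1
  have h4 : xx (inv q.1) = q.1 0 := congrFun h2 0
  have h5 : yy (inv q.1) = q.1 1 := congrFun h2 1
  rw [h4, h5] at h3
  exact h3

lemma coord_cont (i : Fin 2) : Continuous (fun x : Z => x.1 i) :=
  (continuous_apply i).comp continuous_subtype_val

lemma inv_continuous : Continuous (fun q : Z => inv q.1) := by
  have c0 := coord_cont 0
  have c1 := coord_cont 1
  rw [continuous_iff_continuousAt]
  intro q
  by_cases hq : q.1 0 ^ 2 - 3 * q.1 1 = 0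
  · set t0 := inv q.1 with ht0
    have hne : t0 ≠ 0 := (ne_of_mem q.2).1
    have hphi : phi t0 = q.1 := (ne_of_mem q.2).2
    have hx : xx t0 = q.1 0 := congrFun hphi 0
    have hy : yy t0 = q.1 1 := congrFun hphi 1
    have h1 : t0 - (t0⁻¹) ^ 2 = 0 := by
      have := xx_yy t0 hne
      rw [hx, hy, hq] at this
      exact pow_eq_zero_iff two_ne_zero |>.mp this.symm
    have h3 : t0 ^ 3 = 1 := by
      have : t0 ^ 2 * (t0 - (t0⁻¹) ^ 2) = t0 ^ 3 - 1 := by field_simp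
      rw [h1, mul_zero] at this
      exact (sub_eq_zero.mp this.symm)
    have hq0 : q.1 0 = 3 * t0 := by
      rw [← hx, xx]; linear_combination -h1
    have hq1 : q.1 1 = 3 * t0 ^ 2 := by
      have : t0⁻¹ = t0 ^ 2 := by field_simp; exact h3.symm
      rw [← hy, yy, this]; ring
    rw [Metric.continuousAt_iff']
    intro ε hε
    have hcont : Continuous (fun p : Z => ‖p.1 0 - 3 * t0‖ * (1 + ‖p.1 0‖ + ‖p.1 1‖) ^ 2
        + ‖p.1 1 - 3 * t0 ^ 2‖ * (1 + ‖p.1 0‖ + ‖p.1 1‖)) := by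
      have n0 := c0.norm
      have n1 := c1.norm
      exact (((c0.sub continuous_const).norm).mul ((((continuous_const.add n0).add n1)).pow 2)).add
        (((c1.sub continuous_const).norm).mul ((continuous_const.add n0).add n1))
    have hval : ‖q.1 0 - 3 * t0‖ * (1 + ‖q.1 0‖ + ‖q.1 1‖) ^ 2
        + ‖q.1 1 - 3 * t0 ^ 2‖ * (1 + ‖q.1 0‖ + ‖q.1 1‖) = 0 := by
      rw [hq0, hq1]; simp
    have hev := (hcont.tendsto q).eventually (gt_mem_nhds (show _ < ε ^ 3 by rw [hval]; positivity))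
    filter_upwards [hev] with p hp
    have hb := cusp_bound (cubic_inv p) h3
    have h5 := lt_of_le_of_lt hb hp
    rw [dist_eq_norm, ← ht0]
    exact lt_of_pow_lt_pow_left₀ 3 hε.le h5
  · have hcont : ContinuousAt (fun p : Z => (p.1 0 * p.1 1 - 9) / (2 * (p.1 0 ^ 2 - 3 * p.1 1))) q := by
      apply ContinuousAt.div
      · exact ((c0.mul c1).sub continuous_const).continuousAt
      · exact (continuous_const.mul ((c0.pow 2).sub (continuous_const.mul c1))).continuousAt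
      · exact mul_ne_zero two_ne_zero hq
    refine hcont.congr ?_
    have hopen : ∀ᶠ p : Z in nhds q, p.1 0 ^ 2 - 3 * p.1 1 ≠ 0 :=
      (((c0.pow 2).sub (continuous_const.mul c1)).continuousAt).eventually_ne hq
    filter_upwards [hopen] with p hp
    unfold inv
    rw [if_neg hp]

def homeo : {z : ℂ // z ≠ 0} ≃ₜ Z where
  toFun t := ⟨phi t.1, eval_phi t.2⟩
  invFun q := ⟨inv q.1, (ne_of_mem q.2).1⟩
  left_inv t := Subtype.ext (inv_phi t.2)
  right_inv q := Subtype.ext (ne_of_mem q.2).2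
  continuous_toFun := by
    apply Continuous.subtype_mk
    have h1 : Continuous (fun t : {z : ℂ // z ≠ 0} => t.1) := continuous_subtype_val
    have h2 : Continuous (fun t : {z : ℂ // z ≠ 0} => (t.1)⁻¹) := h1.inv₀ (fun t => t.2)
    refine continuous_pi ?_
    intro i
    fin_cases i
    · exact (continuous_const.mul h1).add (h2.pow 2)
    · exact (h1.pow 2).add (continuous_const.mul h2)
  continuous_invFun := by
    apply Continuous.subtype_mk
    exact inv_continuous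

end

end Pool.Agent.Helper641.Deltoid
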