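import Mathlib
import Pool.Agent.Helper641.Deltoid

set_option autoImplicit false

namespace Pool.Agent.Helper641.DeltoidPi1

open Pool.Agent.Helper641.Deltoid

noncomputable section

lemma covering : IsAddQuotientCoveringMap
    (homeo ∘ (fun z : ℂ ↦ (⟨_, z.exp_ne_zero⟩ : {z : ℂ // z ≠ 0})))
    (AddSubgroup.zmultiples (2 * Real.pi * Complex.I)) :=
  Complex.isAddQuotientCoveringMap_exp.homeomorph_comp homeo

lemma finrank_le (x₀ : Z) :
    Module.finrank ℤ (Additive (Abelianization (FundamentalGroup Z x₀))) ≤ 1 := by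
  obtain ⟨e, he⟩ := covering.surjective x₀
  have E := covering.fundamentalGroupEquiv (x := x₀) ⟨e, he⟩
  set g0 : AddSubgroup.zmultiples (2 * Real.pi * Complex.I) :=
    ⟨2 * Real.pi * Complex.I, AddSubgroup.mem_zmultiples _⟩ with hg0
  set γ := E.symm (MulOpposite.op (Multiplicative.ofAdd g0)) with hγ
  apply finrank_le_one (Additive.ofMul (Abelianization.of γ))
  intro w
  obtain ⟨a, ha⟩ := QuotientGroup.mk_surjective (Additive.toMul w)
  obtain ⟨n, hn⟩ := AddSubgroup.mem_zmultiples_iff.mp (Multiplicative.toAdd (MulOpposite.unop (E a))).2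
  refine ⟨n, ?_⟩
  have h1 : E a = (MulOpposite.op (Multiplicative.ofAdd g0)) ^ n := by
    apply MulOpposite.unop_injective
    rw [MulOpposite.unop_zpow, MulOpposite.unop_op, ← ofAdd_zsmul]
    apply Multiplicative.toAdd.injective
    apply Subtype.ext
    rw [toAdd_ofAdd]
    rw [← hn]
    rfl
  have h2 : a = γ ^ n := by
    rw [hγ, ← map_zpow, ← h1, MulEquiv.symm_apply_apply]
  apply Additive.toMul.injective
  rw [toMul_zsmul, toMul_ofMul, ← map_zpow, ← h2]
  exact ha

end

end Pool.Agent.Helper641.DeltoidPi1
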