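import Mathlib
import Pool.Agent.Helper641.Deltoid

set_option autoImplicit false

namespace Pool.Agent.Helper641.DeltoidUni

open Pool.Agent.Helper641.Deltoid

noncomputable section

lemma xx_sub {t : ℂ} (ht : t ≠ 0) : xx t - 3 = (t - 1) ^ 2 * (2 * t + 1) / t ^ 2 := by
  unfold xx; field_simp; ring

lemma yy_sub {t : ℂ} (ht : t ≠ 0) : yy t - 3 = (t - 1) ^ 2 * (t + 2) / t := by
  unfold yy; field_simp; ring

lemma norm_one_add {ρ : ℂ} {s : ℝ} (hρ : ‖ρ‖ ≤ 1 / 4) (hs0 : 0 ≤ s) (hs1 : s ≤ 1) :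
    3 / 4 ≤ ‖1 + s * ρ‖ := by
  have h1 : ‖(s : ℂ) * ρ‖ ≤ 1 / 4 := by
    rw [norm_mul, Complex.norm_real, Real.norm_of_nonneg hs0]
    have := norm_nonneg ρ
    nlinarith
  have h2 : ‖(1 : ℂ)‖ ≤ ‖1 + s * ρ‖ + ‖(s : ℂ) * ρ‖ := by
    have : (1 : ℂ) = (1 + s * ρ) - s * ρ := by ring
    calc ‖(1 : ℂ)‖ = ‖(1 + s * ρ) - s * ρ‖ := by rw [← this]
      _ ≤ _ := norm_sub_le _ _
  rw [norm_one] at h2
  linarith

lemma mono_x {ρ : ℂ} {s : ℝ} (hρ : ‖ρ‖ ≤ 1 / 4) (hs0 : 0 ≤ s) (hs1 : s ≤ 1) :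
    ‖xx (1 + s * ρ) - 3‖ ≤ ‖xx (1 + ρ) - 3‖ := by
  have hB := norm_one_add hρ hs0 hs1
  have hB1 := norm_one_add (s := 1) hρ zero_le_one le_rfl
  rw [Complex.ofReal_one, one_mul] at hB1
  have hne : 1 + (s : ℂ) * ρ ≠ 0 := by
    intro h; rw [h, norm_zero] at hB; linarith
  have hne1 : 1 + ρ ≠ 0 := by
    intro h; rw [h, norm_zero] at hB1; linarith
  rw [xx_sub hne, xx_sub hne1]
  have e1 : (1 + (s : ℂ) * ρ - 1) ^ 2 * (2 * (1 + s * ρ) + 1) / (1 + s * ρ) ^ 2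
      = ρ ^ 2 * (s ^ 2 * (3 + 2 * (s * ρ)) / (1 + s * ρ) ^ 2) := by ring
  have e2 : (1 + ρ - 1) ^ 2 * (2 * (1 + ρ) + 1) / (1 + ρ) ^ 2
      = ρ ^ 2 * ((3 + 2 * ρ) / (1 + ρ) ^ 2) := by ring
  rw [e1, e2, norm_mul, norm_mul]
  apply mul_le_mul_of_nonneg_left _ (norm_nonneg _)
  rw [norm_div, norm_div, norm_mul, norm_pow, norm_pow, norm_pow, Complex.norm_real,
    Real.norm_of_nonneg hs0, div_le_div_iff₀ (by positivity) (by positivity)]
  set A := ‖3 + 2 * ρ‖ with hA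
  set Bs := ‖1 + (s : ℂ) * ρ‖ with hBs
  have hρ0 := norm_nonneg ρ
  have hA1 : 5 / 2 ≤ A := by
    have : (3 : ℂ) = (3 + 2 * ρ) - 2 * ρ := by ring
    have h3 : ‖(3 : ℂ)‖ ≤ ‖3 + 2 * ρ‖ + ‖2 * ρ‖ := by
      calc ‖(3 : ℂ)‖ = ‖(3 + 2 * ρ) - 2 * ρ‖ := by rw [← this]
        _ ≤ _ := norm_sub_le _ _
    rw [norm_mul] at h3
    norm_num at h3
    linarith
  have h1 : ‖3 + 2 * ((s : ℂ) * ρ)‖ ≤ A + (1 - s) / 2 := by
    have : 3 + 2 * ((s : ℂ) * ρ) = (3 + 2 * ρ) - ((1 - s : ℝ) : ℂ) * (2 * ρ) := by push_cast; ring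
    rw [this]
    refine (norm_sub_le _ _).trans ?_
    rw [norm_mul, Complex.norm_real, Real.norm_of_nonneg (by linarith), norm_mul]
    norm_num
    nlinarith
  have h2 : ‖1 + ρ‖ ≤ Bs + (1 - s) / 4 := by
    have : 1 + ρ = (1 + (s : ℂ) * ρ) + ((1 - s : ℝ) : ℂ) * ρ := by push_cast; ring
    rw [this]
    refine (norm_add_le _ _).trans ?_
    rw [norm_mul, Complex.norm_real, Real.norm_of_nonneg (by linarith)]
    nlinarith
  have h3 : A + (1 - s) / 2 ≤ A * (1 + (1 - s) / 5) := by nlinarith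
  have h4 : Bs + (1 - s) / 4 ≤ Bs * (1 + (1 - s) / 3) := by nlinarith
  have h5 : s * (1 + (1 - s) / 5) ≤ 1 := by nlinarith
  have h6 : s * (1 + (1 - s) / 3) ^ 2 ≤ 1 := by nlinarith [mul_nonneg hs0 (sub_nonneg.mpr hs1), mul_nonneg (mul_nonneg hs0 (sub_nonneg.mpr hs1)) (sub_nonneg.mpr hs1)]
  have hBpos : 0 ≤ Bs := norm_nonneg _
  have hApos : 0 ≤ A := norm_nonneg _
  calc s ^ 2 * ‖3 + 2 * ((s : ℂ) * ρ)‖ * ‖1 + ρ‖ ^ 2
      ≤ s ^ 2 * (A * (1 + (1 - s) / 5)) * (Bs * (1 + (1 - s) / 3)) ^ 2 := by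
        have h1' := h1.trans h3
        have h2' := h2.trans h4
        gcongr
    _ = A * Bs ^ 2 * ((s * (1 + (1 - s) / 5)) * (s * (1 + (1 - s) / 3) ^ 2)) := by ring
    _ ≤ A * Bs ^ 2 * (1 * 1) := by
        have h0 : 0 ≤ s * (1 + (1 - s) / 3) ^ 2 := by positivity
        gcongr
    _ = A * Bs ^ 2 := by ring

lemma mono_y {ρ : ℂ} {s : ℝ} (hρ : ‖ρ‖ ≤ 1 / 4) (hs0 : 0 ≤ s) (hs1 : s ≤ 1) :
    ‖yy (1 + s * ρ) - 3‖ ≤ ‖yy (1 + ρ) - 3‖ := by
  have hB := norm_one_add hρ hs0 hs1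
  have hB1 := norm_one_add (s := 1) hρ zero_le_one le_rfl
  rw [Complex.ofReal_one, one_mul] at hB1
  have hne : 1 + (s : ℂ) * ρ ≠ 0 := by
    intro h; rw [h, norm_zero] at hB; linarith
  have hne1 : 1 + ρ ≠ 0 := by
    intro h; rw [h, norm_zero] at hB1; linarith
  rw [yy_sub hne, yy_sub hne1]
  have e1 : (1 + (s : ℂ) * ρ - 1) ^ 2 * ((1 + s * ρ) + 2) / (1 + s * ρ)
      = ρ ^ 2 * (s ^ 2 * (3 + (s * ρ)) / (1 + s * ρ)) := by ring
  have e2 : (1 + ρ - 1) ^ 2 * ((1 + ρ) + 2) / (1 + ρ)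
      = ρ ^ 2 * ((3 + ρ) / (1 + ρ)) := by ring
  rw [e1, e2, norm_mul, norm_mul]
  apply mul_le_mul_of_nonneg_left _ (norm_nonneg _)
  rw [norm_div, norm_div, norm_mul, norm_pow, Complex.norm_real,
    Real.norm_of_nonneg hs0, div_le_div_iff₀ (by positivity) (by positivity)]
  set A := ‖3 + ρ‖ with hA
  set Bs := ‖1 + (s : ℂ) * ρ‖ with hBs
  have hρ0 := norm_nonneg ρ
  have hA1 : 5 / 2 ≤ A := by
    have : (3 : ℂ) = (3 + ρ) - ρ := by ring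
    have h3 : ‖(3 : ℂ)‖ ≤ ‖3 + ρ‖ + ‖ρ‖ := by
      calc ‖(3 : ℂ)‖ = ‖(3 + ρ) - ρ‖ := by rw [← this]
        _ ≤ _ := norm_sub_le _ _
    norm_num at h3
    linarith
  have h1 : ‖3 + ((s : ℂ) * ρ)‖ ≤ A + (1 - s) / 4 := by
    have : 3 + ((s : ℂ) * ρ) = (3 + ρ) - ((1 - s : ℝ) : ℂ) * ρ := by push_cast; ring
    rw [this]
    refine (norm_sub_le _ _).trans ?_
    rw [norm_mul, Complex.norm_real, Real.norm_of_nonneg (by linarith)]
    nlinarith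
  have h2 : ‖1 + ρ‖ ≤ Bs + (1 - s) / 4 := by
    have : 1 + ρ = (1 + (s : ℂ) * ρ) + ((1 - s : ℝ) : ℂ) * ρ := by push_cast; ring
    rw [this]
    refine (norm_add_le _ _).trans ?_
    rw [norm_mul, Complex.norm_real, Real.norm_of_nonneg (by linarith)]
    nlinarith
  have h3 : A + (1 - s) / 4 ≤ A * (1 + (1 - s) / 5) := by nlinarith
  have h4 : Bs + (1 - s) / 4 ≤ Bs * (1 + (1 - s) / 3) := by nlinarith
  have h5 : s * (1 + (1 - s) / 5) ≤ 1 := by nlinarith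
  have h6 : s * (1 + (1 - s) / 3) ≤ 1 := by nlinarith
  have hBpos : 0 ≤ Bs := norm_nonneg _
  have hApos : 0 ≤ A := norm_nonneg _
  calc s ^ 2 * ‖3 + ((s : ℂ) * ρ)‖ * ‖1 + ρ‖
      ≤ s ^ 2 * (A * (1 + (1 - s) / 5)) * (Bs * (1 + (1 - s) / 3)) := by
        have h1' := h1.trans h3
        have h2' := h2.trans h4
        gcongr
    _ = A * Bs * ((s * (1 + (1 - s) / 5)) * (s * (1 + (1 - s) / 3))) := by ring
    _ ≤ A * Bs * (1 * 1) := by
        have h0 : 0 ≤ s * (1 + (1 - s) / 3) := by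
          have : 0 ≤ 1 + (1 - s) / 3 := by linarith
          positivity
        gcongr
    _ = A * Bs := by ring

/-- squared distance to the cusp (3,3) -/
def m (τ : ℂ) : ℝ := ‖xx τ - 3‖ ^ 2 + ‖yy τ - 3‖ ^ 2

lemma near {τ : ℂ} (hτ : τ ≠ 0) (hx : ‖xx τ - 3‖ < 1 / 6000) (hy : ‖yy τ - 3‖ < 1 / 6000) :
    ‖τ - 1‖ < 1 / 4 := by
  have h := cusp_bound (cubic_phi hτ) (one_pow 3 : (1 : ℂ) ^ 3 = 1)
  rw [mul_one, one_pow, mul_one] at h
  have hx1 : ‖xx τ‖ ≤ 4 := by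
    have : xx τ = (xx τ - 3) + 3 := by ring
    rw [this]
    refine (norm_add_le _ _).trans ?_
    norm_num
    linarith
  have hy1 : ‖yy τ‖ ≤ 4 := by
    have : yy τ = (yy τ - 3) + 3 := by ring
    rw [this]
    refine (norm_add_le _ _).trans ?_
    norm_num
    linarith
  have hx0 := norm_nonneg (xx τ)
  have hy0 := norm_nonneg (yy τ)
  have hxx0 := norm_nonneg (xx τ - 3)
  have hyy0 := norm_nonneg (yy τ - 3)
  have h2 : ‖xx τ - 3‖ * (1 + ‖xx τ‖ + ‖yy τ‖) ^ 2 + ‖yy τ - 3‖ * (1 + ‖xx τ‖ + ‖yy τ‖)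
      ≤ (1 / 6000) * (1 + 4 + 4) ^ 2 + (1 / 6000) * (1 + 4 + 4) := by
    gcongr
  have h3 : ‖τ - 1‖ ^ 3 < (1 / 4) ^ 3 := by
    refine (h.trans h2).trans_lt ?_
    norm_num
  exact lt_of_pow_lt_pow_left₀ 3 (by norm_num) h3

lemma m_mono {ρ : ℂ} {s : ℝ} (hρ : ‖ρ‖ ≤ 1 / 4) (hs0 : 0 ≤ s) (hs1 : s ≤ 1) :
    m (1 + s * ρ) ≤ m (1 + ρ) := by
  unfold m
  have h1 := mono_x hρ hs0 hs1
  have h2 := mono_y hρ hs0 hs1
  gcongr

lemma m_one : m 1 = 0 := by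
  unfold m xx yy; norm_num

lemma m_cont : ContinuousAt m 1 := by
  unfold m xx yy
  have h : ContinuousAt (fun τ : ℂ => τ⁻¹) 1 := continuousAt_inv₀ one_ne_zero
  fun_prop (disch := norm_num)

/-- punctured discs are preconnected -/
lemma pb_preconnected (η : ℝ) : IsPreconnected {τ : ℂ | τ ≠ 1 ∧ ‖τ - 1‖ < η} := by
  have h : {τ : ℂ | τ ≠ 1 ∧ ‖τ - 1‖ < η} =
      (fun p : ℝ × ℝ => 1 + (p.2 : ℂ) * Complex.exp (p.1 * Complex.I)) '' (Set.univ ×ˢ Set.Ioo 0 η) := by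
    ext τ
    constructor
    · rintro ⟨h1, h2⟩
      refine ⟨(Complex.arg (τ - 1), ‖τ - 1‖), ⟨Set.mem_univ _, ?_, h2⟩, ?_⟩
      · exact norm_pos_iff.mpr (sub_ne_zero.mpr h1)
      · simp only
        rw [Complex.norm_mul_exp_arg_mul_I]; ring
    · rintro ⟨⟨θ, r⟩, ⟨-, hr0, hr1⟩, rfl⟩
      simp only at hr0 hr1 ⊢
      have e : (1 + (r : ℂ) * Complex.exp (θ * Complex.I)) - 1 = (r : ℂ) * Complex.exp (θ * Complex.I) := by ring
      have hn : ‖(r : ℂ) * Complex.exp (θ * Complex.I)‖ = r := by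
        rw [norm_mul, Complex.norm_exp_ofReal_mul_I, mul_one, Complex.norm_real, Real.norm_of_nonneg hr0.le]
      refine ⟨?_, ?_⟩
      · intro h
        rw [h, sub_self] at e
        rw [← e, norm_zero] at hn
        linarith
      · rw [e, hn]; exact hr1
  rw [h]
  apply (isPreconnected_univ.prod isPreconnected_Ioo).image
  apply Continuous.continuousOn
  fun_prop

def W (δ : ℝ) : Set ℂ := {τ : ℂ | τ ≠ 1 ∧ ‖τ - 1‖ < 1 / 4 ∧ m τ < δ ^ 2}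

lemma W_preconnected {δ : ℝ} (hδ : 0 < δ) : IsPreconnected (W δ) := by
  have hev := m_cont.eventually (gt_mem_nhds (show m 1 < δ ^ 2 by rw [m_one]; positivity))
  obtain ⟨η', hη', hball⟩ := Metric.eventually_nhds_iff.mp hev
  set η := min η' (1 / 4) with hη
  have hηpos : 0 < η := lt_min hη' (by norm_num)
  have hη4 : η ≤ 1 / 4 := min_le_right _ _
  have hPB : {τ : ℂ | τ ≠ 1 ∧ ‖τ - 1‖ < η} ⊆ W δ := by
    rintro τ ⟨h1, h2⟩
    refine ⟨h1, lt_of_lt_of_le h2 hη4, hball ?_⟩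
    rw [dist_eq_norm]
    exact lt_of_lt_of_le h2 (min_le_left _ _)
  have hx0 : (1 + ((η / 2 : ℝ) : ℂ)) ∈ {τ : ℂ | τ ≠ 1 ∧ ‖τ - 1‖ < η} := by
    have e : (1 + ((η / 2 : ℝ) : ℂ)) - 1 = ((η / 2 : ℝ) : ℂ) := by ring
    have hn : ‖((η / 2 : ℝ) : ℂ)‖ = η / 2 := by
      rw [Complex.norm_real, Real.norm_of_nonneg (by linarith)]
    refine ⟨?_, ?_⟩
    · intro h
      rw [h, sub_self] at e
      rw [← e, norm_zero] at hn
      linarith
    · rw [e, hn]; linarith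
  apply isPreconnected_of_forall (1 + ((η / 2 : ℝ) : ℂ))
  rintro y ⟨hy1, hy2, hy3⟩
  refine ⟨((fun s : ℝ => 1 + (s : ℂ) * (y - 1)) '' Set.Ioc 0 1) ∪ {τ : ℂ | τ ≠ 1 ∧ ‖τ - 1‖ < η},
    ?_, Or.inr hx0, Or.inl ⟨1, ⟨zero_lt_one, le_rfl⟩, by simp⟩, ?_⟩
  · apply Set.union_subset _ hPB
    rintro _ ⟨s, ⟨hs0, hs1⟩, rfl⟩
    simp only
    have e : (1 + (s : ℂ) * (y - 1)) - 1 = (s : ℂ) * (y - 1) := by ring
    have hn : ‖(s : ℂ) * (y - 1)‖ = s * ‖y - 1‖ := by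
      rw [norm_mul, Complex.norm_real, Real.norm_of_nonneg hs0.le]
    have hy0 : 0 < ‖y - 1‖ := norm_pos_iff.mpr (sub_ne_zero.mpr hy1)
    refine ⟨?_, ?_, ?_⟩
    · intro h
      rw [h, sub_self] at e
      rw [← e, norm_zero] at hn
      have : 0 < s * ‖y - 1‖ := mul_pos hs0 hy0
      linarith
    · rw [e, hn]; nlinarith
    · have := m_mono hy2.le hs0.le hs1
      have e2 : 1 + (y - 1) = y := by ring
      rw [e2] at this
      exact lt_of_le_of_lt this hy3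
  · apply IsPreconnected.union (1 + (η : ℂ) * (y - 1))
    · exact ⟨η, ⟨hηpos, by linarith⟩, rfl⟩
    · have e : (1 + (η : ℂ) * (y - 1)) - 1 = (η : ℂ) * (y - 1) := by ring
      have hn : ‖(η : ℂ) * (y - 1)‖ = η * ‖y - 1‖ := by
        rw [norm_mul, Complex.norm_real, Real.norm_of_nonneg hηpos.le]
      have hy0 : 0 < ‖y - 1‖ := norm_pos_iff.mpr (sub_ne_zero.mpr hy1)
      refine ⟨?_, ?_⟩
      · intro h
        rw [h, sub_self] at e
        rw [← e, norm_zero] at hn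
        have : 0 < η * ‖y - 1‖ := mul_pos hηpos hy0
        linarith
      · rw [e, hn]; nlinarith
    · apply isPreconnected_Ioc.image
      apply Continuous.continuousOn
      fun_prop
    · exact pb_preconnected η

lemma xx_mul {t0 τ : ℂ} (h0 : t0 ^ 3 = 1) (hτ : τ ≠ 0) : xx (t0 * τ) = t0 * xx τ := by
  have ht0 : t0 ≠ 0 := by
    rintro rfl; norm_num at h0
  unfold xx
  field_simp
  linear_combination (-1 : ℂ) * h0

lemma yy_mul {t0 τ : ℂ} (h0 : t0 ^ 3 = 1) (hτ : τ ≠ 0) : yy (t0 * τ) = t0 ^ 2 * yy τ := by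
  have ht0 : t0 ≠ 0 := by
    rintro rfl; norm_num at h0
  unfold yy
  field_simp
  linear_combination (-2 : ℂ) * h0

lemma norm_t0 {t0 : ℂ} (h0 : t0 ^ 3 = 1) : ‖t0‖ = 1 := by
  have h1 : ‖t0‖ ^ 3 = 1 := by rw [← norm_pow, h0, norm_one]
  exact (pow_eq_one_iff_of_nonneg (norm_nonneg _) (by norm_num)).mp h1

lemma uni {t0 : ℂ} (h0 : t0 ^ 3 = 1) {δ : ℝ} (hδ : 0 < δ) (hδ2 : δ < 1 / 6000) :
    IsPreconnected {q : Fin 2 → ℂ | MvPolynomial.eval q ff = 0 ∧ q ≠ phi t0 ∧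
            ‖q 0 - phi t0 0‖ ^ 2 + ‖q 1 - phi t0 1‖ ^ 2 < δ ^ 2} := by
  have ht0 : t0 ≠ 0 := by
    rintro rfl; norm_num at h0
  have hn := norm_t0 h0
  have hx1 : xx t0 = t0 * 3 := by
    have := xx_mul h0 one_ne_zero
    rw [mul_one] at this
    rw [this]; unfold xx; norm_num
  have hy1 : yy t0 = t0 ^ 2 * 3 := by
    have := yy_mul h0 one_ne_zero
    rw [mul_one] at this
    rw [this]; unfold yy; norm_num
  have hmm : ∀ τ : ℂ, τ ≠ 0 → ‖phi (t0 * τ) 0 - phi t0 0‖ ^ 2 + ‖phi (t0 * τ) 1 - phi t0 1‖ ^ 2 = m τ := by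
    intro τ hτ
    rw [phi0, phi0, phi1, phi1, xx_mul h0 hτ, yy_mul h0 hτ, hx1, hy1, ← mul_sub, ← mul_sub,
      norm_mul, norm_mul, norm_pow, hn]
    unfold m
    ring
  have hset : {q : Fin 2 → ℂ | MvPolynomial.eval q ff = 0 ∧ q ≠ phi t0 ∧
            ‖q 0 - phi t0 0‖ ^ 2 + ‖q 1 - phi t0 1‖ ^ 2 < δ ^ 2} =
      (fun τ : ℂ => phi (t0 * τ)) '' (W δ) := by
    ext q
    constructor
    · rintro ⟨h1, h2, h3⟩
      obtain ⟨hne, hphi⟩ := ne_of_mem h1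
      set t := inv q with ht
      have ht' : t0 * (t / t0) = t := by field_simp
      have hτ : t / t0 ≠ 0 := div_ne_zero hne ht0
      refine ⟨t / t0, ⟨?_, ?_, ?_⟩, ?_⟩
      · intro h
        rw [h, mul_one] at ht'
        apply h2
        rw [← hphi, ht']
      · have h4 := hmm (t / t0) hτ
        rw [ht', hphi] at h4
        rw [h4] at h3
        unfold m at h3
        apply near hτ
        · have : ‖xx (t / t0) - 3‖ ^ 2 < δ ^ 2 := by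
            have := sq_nonneg ‖yy (t / t0) - 3‖
            linarith
          exact (lt_of_pow_lt_pow_left₀ 2 hδ.le this).trans hδ2
        · have : ‖yy (t / t0) - 3‖ ^ 2 < δ ^ 2 := by
            have := sq_nonneg ‖xx (t / t0) - 3‖
            linarith
          exact (lt_of_pow_lt_pow_left₀ 2 hδ.le this).trans hδ2
      · have h4 := hmm (t / t0) hτ
        rw [ht', hphi] at h4
        rw [← h4]; exact h3
      · simp only [ht', hphi]
    · rintro ⟨τ, ⟨h1, h2, h3⟩, rfl⟩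
      have hτ : τ ≠ 0 := by
        rintro rfl
        rw [zero_sub, norm_neg, norm_one] at h2
        norm_num at h2
      refine ⟨eval_phi (mul_ne_zero ht0 hτ), ?_, ?_⟩
      · intro h
        have h4 := congrArg inv h
        simp only at h4
        rw [inv_phi (mul_ne_zero ht0 hτ), inv_phi ht0] at h4
        apply h1
        have : t0 * τ = t0 * 1 := by rw [h4, mul_one]
        exact mul_left_cancel₀ ht0 this
      · simp only
        rw [hmm τ hτ]; exact h3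
  rw [hset]
  apply (W_preconnected hδ).image
  have hne : ∀ τ ∈ W δ, t0 * τ ≠ 0 := by
    rintro τ ⟨h1, h2, h3⟩
    apply mul_ne_zero ht0
    rintro rfl
    rw [zero_sub, norm_neg, norm_one] at h2
    norm_num at h2
  have hc : ContinuousOn (fun τ : ℂ => t0 * τ) (W δ) := by fun_prop
  have hci : ContinuousOn (fun τ : ℂ => (t0 * τ)⁻¹) (W δ) := hc.inv₀ hne
  rw [continuousOn_pi]
  intro i
  fin_cases i
  · exact (continuousOn_const.mul hc).add (hci.pow 2)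
  · exact (hc.pow 2).add (continuousOn_const.mul hci)

end

end Pool.Agent.Helper641.DeltoidUni
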