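import Mathlib
import Pool.Agent.Helper641.DeltoidUni
import Pool.Agent.Helper641.DeltoidPi1

set_option autoImplicit false

namespace Pool.Agent.Helper641.DeltoidMain

open Pool.Agent.Helper641.Deltoid Pool.Agent.Helper641.DeltoidUni Pool.Agent.Helper641.DeltoidPi1

noncomputable section

/-- the set of unibranch singular points -/
def Sg : Set (Fin 2 → ℂ) := {p : Fin 2 → ℂ | MvPolynomial.eval p ff = 0 ∧
        (∀ i : Fin 2, MvPolynomial.eval p (MvPolynomial.pderiv i ff) = 0) ∧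
        ∃ ε : ℝ, 0 < ε ∧ ∀ δ : ℝ, 0 < δ → δ < ε →
          IsPreconnected {q : Fin 2 → ℂ | MvPolynomial.eval q ff = 0 ∧ q ≠ p ∧
            ‖q 0 - p 0‖ ^ 2 + ‖q 1 - p 1‖ ^ 2 < δ ^ 2}}

lemma cusp_mem {t0 : ℂ} (h0 : t0 ^ 3 = 1) : phi t0 ∈ Sg := by
  have ht0 : t0 ≠ 0 := by
    rintro rfl; norm_num at h0
  refine ⟨eval_phi ht0, ?_, 1 / 6000, by norm_num, fun δ hδ hδ2 => uni h0 hδ hδ2⟩
  have hinv : t0⁻¹ = t0 ^ 2 := by field_simp; exact h0.symm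
  intro i
  fin_cases i
  · change MvPolynomial.eval (phi t0) (MvPolynomial.pderiv 0 ff) = 0
    rw [eval_d0, phi0, phi1, xx, yy, hinv]
    linear_combination (-3/2) * t0 ^ 2 * (t0 ^ 3 - 1) * h0
  · change MvPolynomial.eval (phi t0) (MvPolynomial.pderiv 1 ff) = 0
    rw [eval_d1, phi0, phi1, xx, yy, hinv]
    linear_combination (-(3/2) * t0 ^ 7 - (15/2) * t0 ^ 4 + 9 * t0) * h0

lemma grad0 {t : ℂ} (ht : t ≠ 0) :
    t ^ 4 * MvPolynomial.eval (phi t) (MvPolynomial.pderiv 0 ff) = -(t ^ 3 - 1) ^ 3 := by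
  rw [eval_d0, phi0, phi1, xx, yy]
  field_simp
  ring

lemma Sg_sub : Sg ⊆ phi '' {t : ℂ | t ^ 3 = 1} := by
  rintro p ⟨h1, h2, -⟩
  obtain ⟨hne, hphi⟩ := ne_of_mem h1
  refine ⟨inv p, ?_, hphi⟩
  have h3 := h2 0
  have h4 := grad0 hne
  rw [hphi, h3, mul_zero] at h4
  have h5 : (inv p ^ 3 - 1) ^ 3 = 0 := by linear_combination h4
  have h6 : inv p ^ 3 - 1 = 0 := pow_eq_zero_iff three_ne_zero |>.mp h5
  exact sub_eq_zero.mp h6

lemma phi_injOn : Set.InjOn phi {t : ℂ | t ^ 3 = 1} := by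
  intro a ha b hb hab
  have ha' : a ^ 3 = 1 := ha
  have hb' : b ^ 3 = 1 := hb
  have ha0 : a ≠ 0 := by rintro rfl; norm_num at ha'
  have hb0 : b ≠ 0 := by rintro rfl; norm_num at hb'
  rw [← inv_phi ha0, hab, inv_phi hb0]

lemma Sg_eq : Sg = phi '' {t : ℂ | t ^ 3 = 1} := by
  apply Set.Subset.antisymm Sg_sub
  rintro _ ⟨t, ht, rfl⟩
  exact cusp_mem ht

lemma card_cube : Set.ncard {t : ℂ | t ^ 3 = 1} = 3 := by
  have hω := Complex.isPrimitiveRoot_exp 3 (by norm_num)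
  have h1 := hω.card_nthRootsFinset
  have h2 : {t : ℂ | t ^ 3 = 1} = ((Polynomial.nthRootsFinset 3 (1 : ℂ) : Finset ℂ) : Set ℂ) := by
    ext t
    rw [Set.mem_ofPred_eq, Finset.mem_coe, Polynomial.mem_nthRootsFinset (by norm_num)]
  rw [h2, Set.ncard_coe_finset, h1]

lemma ncard_Sg : Set.ncard Sg = 3 := by
  rw [Sg_eq, phi_injOn.ncard_image, card_cube]

end

end Pool.Agent.Helper641.DeltoidMain
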