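import Mathlib
import Pool.Agent.Helper641.Contract

set_option autoImplicit false

open Pool.Agent.Helper641.Rigid Pool.Agent.Helper641.Fibres

namespace Pool.Agent.Helper641.SetIso

noncomputable section

lemma mem_I_of_vanish {c : ℂ} {g : R3}
    (h : ∀ x : Fin 3 → ℂ, MvPolynomial.eval x pp = c → MvPolynomial.eval x g = 0) : g ∈ I c := by
  have hp : (I c).IsPrime := Ideal.Quotient.isDomain_iff_prime _ |>.mp (inferInstance : IsDomain (B c))
  have h1 := MvPolynomial.IsPrime.vanishingIdeal_zeroLocus (K := ℂ) (I c)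
  rw [← h1, MvPolynomial.mem_vanishingIdeal_iff]
  intro x hx
  rw [MvPolynomial.mem_zeroLocus_iff] at hx
  have h2 := hx (pp - MvPolynomial.C c) (Ideal.subset_span rfl)
  rw [map_sub, MvPolynomial.aeval_C, sub_eq_zero] at h2
  exact h x h2

lemma eval_aeval (x : Fin 3 → ℂ) (f : Fin 3 → R3) (g : R3) :
    MvPolynomial.eval x (MvPolynomial.aeval f g) =
      MvPolynomial.eval (fun i => MvPolynomial.eval x (f i)) g := by
  induction g using MvPolynomial.induction_on with
  | C a => simp
  | add p q hp hq => simp only [map_add, hp, hq]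
  | mul_X p i hp => simp only [map_mul, hp, MvPolynomial.aeval_X, MvPolynomial.eval_X]

/-- the algebra homomorphism induced by a polynomial map between fibres -/
def pull {c d : ℂ} (f : Fin 3 → R3)
    (hf : ∀ x : Fin 3 → ℂ, MvPolynomial.eval x pp = c →
      MvPolynomial.eval (fun i => MvPolynomial.eval x (f i)) pp = d) : B d →ₐ[ℂ] B c :=
  Ideal.Quotient.liftₐ (I d) ((Ideal.Quotient.mkₐ ℂ (I c)).comp (MvPolynomial.aeval f)) (by
    intro a ha
    have h : I d ≤ RingHom.ker ((Ideal.Quotient.mkₐ ℂ (I c)).comp (MvPolynomial.aeval f)) := by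
      conv_lhs => rw [I]
      rw [Ideal.span_le]
      intro y hy
      rw [Set.mem_singleton_iff.mp hy]
      change Ideal.Quotient.mk (I c) (MvPolynomial.aeval f (pp - MvPolynomial.C d)) = 0
      rw [Ideal.Quotient.eq_zero_iff_mem]
      apply mem_I_of_vanish
      intro x hx
      rw [eval_aeval, map_sub, hf x hx, MvPolynomial.eval_C, sub_self]
    exact h ha)

lemma pull_mk {c d : ℂ} (f : Fin 3 → R3)
    (hf : ∀ x : Fin 3 → ℂ, MvPolynomial.eval x pp = c →
      MvPolynomial.eval (fun i => MvPolynomial.eval x (f i)) pp = d) (g : R3) :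
    pull f hf (Ideal.Quotient.mk (I d) g) = Ideal.Quotient.mk (I c) (MvPolynomial.aeval f g) := rfl

lemma pull_pull {c d : ℂ} (f g : Fin 3 → R3)
    (hf : ∀ x : Fin 3 → ℂ, MvPolynomial.eval x pp = c →
      MvPolynomial.eval (fun i => MvPolynomial.eval x (f i)) pp = d)
    (hg : ∀ x : Fin 3 → ℂ, MvPolynomial.eval x pp = d →
      MvPolynomial.eval (fun i => MvPolynomial.eval x (g i)) pp = c)
    (hfg : ∀ x : Fin 3 → ℂ, MvPolynomial.eval x pp = c →
      (fun j => MvPolynomial.eval (fun i => MvPolynomial.eval x (f i)) (g j)) = x) :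
    (pull f hf).comp (pull g hg) = AlgHom.id ℂ (B c) := by
  have h : ((pull f hf).comp (pull g hg)).comp (Ideal.Quotient.mkₐ ℂ (I c)) =
      (AlgHom.id ℂ (B c)).comp (Ideal.Quotient.mkₐ ℂ (I c)) := by
    apply MvPolynomial.algHom_ext
    intro j
    change pull f hf (pull g hg (Ideal.Quotient.mk (I c) (MvPolynomial.X j))) =
      Ideal.Quotient.mk (I c) (MvPolynomial.X j)
    rw [pull_mk, pull_mk, MvPolynomial.aeval_X, Ideal.Quotient.eq]
    apply mem_I_of_vanish
    intro x hx
    rw [map_sub, eval_aeval, MvPolynomial.eval_X, sub_eq_zero]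
    exact congrFun (hfg x hx) j
  apply AlgHom.ext
  intro b
  obtain ⟨b0, rfl⟩ := Ideal.Quotient.mk_surjective b
  exact DFunLike.congr_fun h b0

/-- distinct nonzero fibres are not isomorphic by polynomial maps -/
theorem noniso_set {c d : ℂ} (hc : c ≠ 0) (hd : d ≠ 0) (f g : Fin 3 → R3)
    (h1 : ∀ x : Fin 3 → ℂ, MvPolynomial.eval x pp = c →
              MvPolynomial.eval (fun i => MvPolynomial.eval x (f i)) pp = d ∧
              (fun j => MvPolynomial.eval (fun i => MvPolynomial.eval x (f i)) (g j)) = x)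
    (h2 : ∀ y : Fin 3 → ℂ, MvPolynomial.eval y pp = d →
              MvPolynomial.eval (fun i => MvPolynomial.eval y (g i)) pp = c ∧
              (fun j => MvPolynomial.eval (fun i => MvPolynomial.eval y (g i)) (f j)) = y) :
    c = d := by
  have hf := fun x hx => (h1 x hx).1
  have hg := fun x hx => (h2 x hx).1
  let Φ : B d ≃ₐ[ℂ] B c := AlgEquiv.ofAlgHom (pull f hf) (pull g hg)
    (pull_pull f g hf hg (fun x hx => (h1 x hx).2))
    (pull_pull g f hg hf (fun x hx => (h2 x hx).2))
  exact Pool.Agent.Helper641.NonIso.noniso hc hd Φ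

end

end Pool.Agent.Helper641.SetIso
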